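import Mathlib
import Pool.Agent.Helper18.BlockSystem

/-!
# Linear triple systems without windows: tight sets and planes
-/

set_option autoImplicit false

namespace Pool.Agent.Helper18.Win

open Finset

variable {V : Type*} [DecidableEq V]

/-- `H` is a linear system of triples in `U`. -/
structure Sys (H : Finset (Finset V)) (U : Finset V) : Prop where
  card3 : ∀ A ∈ H, #A = 3
  sub : ∀ A ∈ H, A ⊆ U
  lin : ∀ A ∈ H, ∀ B ∈ H, A ≠ B → #(A ∩ B) ≤ 1

/-- For no `e` between `K` and `2 K` there are `e` lines on at most `e + 3` points. -/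
def NW (H : Finset (Finset V)) (K : ℕ) : Prop :=
  ∀ S ⊆ H, K ≤ #S → #S ≤ 2 * K → #S + 3 < #(S.biUnion id)

/-- The lines inside `X`. -/
def inn (H : Finset (Finset V)) (X : Finset V) : Finset (Finset V) := H.filter (fun A => A ⊆ X)

/-- The lines through `v`. -/
def thr (H : Finset (Finset V)) (v : V) : Finset (Finset V) := H.filter (fun A => v ∈ A)

/-- No rich sets of size at least `7`. -/
def NoRich (H : Finset (Finset V)) (K : ℕ) : Prop :=
  ∀ X : Finset V, 7 ≤ #X → #X ≤ 2 * K + 3 → #(inn H X) + 3 ≤ #X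

variable {H : Finset (Finset V)} {U : Finset V} {K : ℕ}

lemma mem_inn {X A : Finset V} : A ∈ inn H X ↔ A ∈ H ∧ A ⊆ X := mem_filter

lemma mem_thr {v : V} {A : Finset V} : A ∈ thr H v ↔ A ∈ H ∧ v ∈ A := mem_filter

lemma inn_subset (X : Finset V) : inn H X ⊆ H := filter_subset _ _

lemma thr_subset (v : V) : thr H v ⊆ H := filter_subset _ _

lemma Sys.mono {H' : Finset (Finset V)} (h : Sys H U) (hH : H' ⊆ H) : Sys H' U :=
  ⟨fun A hA => h.card3 A (hH hA), fun A hA => h.sub A (hH hA),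
    fun A hA B hB => h.lin A (hH hA) B (hH hB)⟩

lemma Sys.inn (h : Sys H U) (X : Finset V) : Sys (inn H X) X :=
  ⟨fun A hA => h.card3 A (mem_inn.1 hA).1, fun _ hA => (mem_inn.1 hA).2,
    fun A hA B hB => h.lin A (mem_inn.1 hA).1 B (mem_inn.1 hB).1⟩

lemma supermod (X Y : Finset V) :
    #(inn H X) + #(inn H Y) ≤ #(inn H (X ∪ Y)) + #(inn H (X ∩ Y)) := by
  have h1 : inn H X ∪ inn H Y ⊆ inn H (X ∪ Y) := by
    intro A hA
    rcases mem_union.1 hA with h | h
    · exact mem_inn.2 ⟨(mem_inn.1 h).1, (mem_inn.1 h).2.trans subset_union_left⟩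
    · exact mem_inn.2 ⟨(mem_inn.1 h).1, (mem_inn.1 h).2.trans subset_union_right⟩
  have h2 : inn H X ∩ inn H Y ⊆ inn H (X ∩ Y) := by
    intro A hA
    obtain ⟨h, h'⟩ := mem_inter.1 hA
    exact mem_inn.2 ⟨(mem_inn.1 h).1, subset_inter (mem_inn.1 h).2 (mem_inn.1 h').2⟩
  have h3 := card_union_add_card_inter (inn H X) (inn H Y)
  have h4 := card_le_card h1
  have h5 := card_le_card h2
  omega

lemma NW.card_inn (h : NW H K) {X : Finset V} (h1 : K + 3 ≤ #X) (h2 : #X ≤ 2 * K + 3) :
    #(inn H X) + 4 ≤ #X := by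
  by_contra hcon
  push Not at hcon
  obtain ⟨S, hS, hSc⟩ := exists_subset_card_eq (s := inn H X) (n := #X - 3) (by omega)
  have h3 := h S (hS.trans (inn_subset X)) (by omega) (by omega)
  have h4 : S.biUnion id ⊆ X := by
    rw [biUnion_subset]
    intro A hA
    exact (mem_inn.1 (hS hA)).2
  have h5 := card_le_card h4
  omega

/-- Two different lines are determined by two common points. -/
lemma Sys.eq_of_mem (h : Sys H U) {A B : Finset V} (hA : A ∈ H) (hB : B ∈ H) {x y : V}
    (hxy : x ≠ y) (hxA : x ∈ A) (hyA : y ∈ A) (hxB : x ∈ B) (hyB : y ∈ B) : A = B := by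
  by_contra hne
  have h1 := h.lin A hA B hB hne
  have h2 : 1 < #(A ∩ B) :=
    one_lt_card.2 ⟨x, mem_inter.2 ⟨hxA, hxB⟩, y, mem_inter.2 ⟨hyA, hyB⟩, hxy⟩
  omega

/-- The number of points on the lines through `v`. -/
lemma Sys.card_thr (h : Sys H U) {v : V} (hv : v ∈ U) : 2 * #(thr H v) + 1 ≤ #U := by
  have h1 : #((thr H v).biUnion (fun A => A.erase v)) = ∑ A ∈ thr H v, #(A.erase v) := by
    apply card_biUnion
    intro A hA B hB hAB
    rw [Function.onFun, disjoint_left]
    intro x hxA hxB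
    rw [mem_erase] at hxA hxB
    exact hAB (h.eq_of_mem (mem_thr.1 hA).1 (mem_thr.1 hB).1 hxA.1 hxA.2 (mem_thr.1 hA).2
      hxB.2 (mem_thr.1 hB).2)
  have h2 : ∑ A ∈ thr H v, #(A.erase v) = 2 * #(thr H v) := by
    rw [mul_comm, ← smul_eq_mul, ← sum_const]
    refine sum_congr rfl fun A hA => ?_
    rw [card_erase_of_mem (mem_thr.1 hA).2, h.card3 A (mem_thr.1 hA).1]
  have h3 : (thr H v).biUnion (fun A => A.erase v) ⊆ U.erase v := by
    rw [biUnion_subset]
    intro A hA x hx
    rw [mem_erase] at hx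
    exact mem_erase.2 ⟨hx.1, h.sub A (mem_thr.1 hA).1 hx.2⟩
  have h4 := card_le_card h3
  rw [card_erase_of_mem hv] at h4
  have h5 : 0 < #U := card_pos.2 ⟨v, hv⟩
  omega

lemma Sys.sum_thr (h : Sys H U) : ∑ v ∈ U, #(thr H v) = 3 * #H := by
  have h1 : ∀ v ∈ U, #(thr H v) = ∑ A ∈ H, if v ∈ A then 1 else 0 := by
    intro v _
    rw [thr, card_filter]
  rw [sum_congr rfl h1, sum_comm, mul_comm, ← smul_eq_mul, ← sum_const]
  refine sum_congr rfl fun A hA => ?_
  rw [← card_filter, ← h.card3 A hA]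
  congr 1
  ext v
  rw [mem_filter]
  exact ⟨fun hv => hv.2, fun hv => ⟨h.sub A hA hv, hv⟩⟩

lemma Sys.card_le_of_six (h : Sys H U) (hU : #U = 6) : #H ≤ 4 := by
  have h1 := h.sum_thr
  have h2 : ∑ v ∈ U, #(thr H v) ≤ ∑ _v ∈ U, 2 := by
    refine sum_le_sum fun v hv => ?_
    have := h.card_thr hv
    omega
  rw [sum_const, smul_eq_mul] at h2
  omega

lemma Sys.card_le_of_three (h : Sys H U) (hU : #U ≤ 3) : #H ≤ 1 := by
  rw [card_le_one]
  intro A hA B hB
  have h1 := eq_of_subset_of_card_le (h.sub A hA) (by rw [h.card3 A hA]; exact hU)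
  have h2 := eq_of_subset_of_card_le (h.sub B hB) (by rw [h.card3 B hB]; exact hU)
  rw [h1, h2]

lemma Sys.card_union (h : Sys H U) {A B : Finset V} (hA : A ∈ H) (hB : B ∈ H) (hAB : A ≠ B) :
    5 ≤ #(A ∪ B) := by
  have h1 := card_union_add_card_inter A B
  have h2 := h.lin A hA B hB hAB
  rw [h.card3 A hA, h.card3 B hB] at h1
  omega

lemma Sys.card_le_of_four (h : Sys H U) (hU : #U ≤ 4) : #H ≤ 1 := by
  rw [card_le_one]
  intro A hA B hB
  by_contra hne
  have h1 := h.card_union hA hB hne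
  have h2 := card_le_card (union_subset (h.sub A hA) (h.sub B hB))
  omega

lemma Sys.card_le_of_five (h : Sys H U) (hU : #U ≤ 5) : #H ≤ 2 := by
  by_contra hcon
  push Not at hcon
  obtain ⟨A, B, C, hA, hB, hC, hAB, hAC, hBC⟩ := two_lt_card_iff.1 hcon
  have h1 := h.card_union hA hB hAB
  have h2 : U = A ∪ B :=
    (eq_of_subset_of_card_le (union_subset (h.sub A hA) (h.sub B hB)) (by omega)).symm
  have h3 : C ⊆ (A ∩ C) ∪ (B ∩ C) := by
    intro x hx
    have := h.sub C hC hx
    rw [h2] at this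
    rcases mem_union.1 this with h' | h'
    · exact mem_union_left _ (mem_inter.2 ⟨h', hx⟩)
    · exact mem_union_right _ (mem_inter.2 ⟨h', hx⟩)
  have h4 := (card_le_card h3).trans (card_union_le _ _)
  have h5 := h.lin A hA C hC hAC
  have h6 := h.lin B hB C hC hBC
  rw [h.card3 C hC] at h4
  omega

/-- The excess of a set with at least four points, which is not a Pasch configuration. -/
lemma Sys.card_inn_le (h : Sys H U) (hR : NoRich H K) {X : Finset V} (h4 : 4 ≤ #X)
    (h2K : #X ≤ 2 * K + 3) (hP : #X = 6 → #(Win.inn H X) ≠ 4) : #(Win.inn H X) + 3 ≤ #X := by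
  have hX := h.inn X
  rcases Nat.lt_or_ge #X 7 with h7 | h7
  · rcases (by omega : #X = 4 ∨ #X = 5 ∨ #X = 6) with h' | h' | h'
    · have := hX.card_le_of_four (by omega); omega
    · have := hX.card_le_of_five (by omega); omega
    · have h1 := hX.card_le_of_six h'
      have h2 := hP h'
      omega
  · exact hR X h7 h2K

/-- The flag `(l, u)` is contained in a Pasch configuration. -/
def IsP (H : Finset (Finset V)) (l : Finset V) (u : V) : Prop :=
  ∃ X : Finset V, #X = 6 ∧ #(inn H X) = 4 ∧ l ⊆ X ∧ u ∈ X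

/-- `X` is a tight set which contains the flag `(l, u)`. -/
structure TightAt (H : Finset (Finset V)) (K : ℕ) (l : Finset V) (u : V) (X : Finset V) :
    Prop where
  card_le : #X ≤ K + 2
  tight : #X ≤ #(inn H X) + 3
  hl : l ⊆ X
  hu : u ∈ X

lemma TightAt.union (h : Sys H U) (hW : NW H K) (hR : NoRich H K) {l : Finset V} {u : V}
    (hl : l ∈ H) (hul : u ∉ l) (hP : ¬ IsP H l u) {X Y : Finset V}
    (hX : TightAt H K l u X) (hY : TightAt H K l u Y) : TightAt H K l u (X ∪ Y) := by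
  have h1 := supermod (H := H) X Y
  have h2 := card_union_add_card_inter X Y
  have hsub : insert u l ⊆ X ∩ Y :=
    insert_subset (mem_inter.2 ⟨hX.hu, hY.hu⟩) (subset_inter hX.hl hY.hl)
  have h4 : 4 ≤ #(X ∩ Y) := by
    have := card_le_card hsub
    rw [card_insert_of_notMem hul, h.card3 l hl] at this
    omega
  have h3 : #(inn H (X ∩ Y)) + 3 ≤ #(X ∩ Y) := by
    apply h.card_inn_le hR h4
    · have := card_le_card (inter_subset_left : X ∩ Y ⊆ X)
      have := hX.card_le
      omega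
    · intro h6 h6'
      exact hP ⟨X ∩ Y, h6, h6', (subset_insert _ _).trans hsub, hsub (mem_insert_self _ _)⟩
  have h5 := hX.tight
  have h6 := hY.tight
  have h7 := hX.card_le
  have h8 := hY.card_le
  have h9 : #(X ∪ Y) ≤ #(inn H (X ∪ Y)) + 3 := by omega
  refine ⟨?_, h9, hX.hl.trans subset_union_left, mem_union_left _ hX.hu⟩
  by_contra hcon
  push Not at hcon
  have := hW.card_inn (X := X ∪ Y) (by omega) (by omega)
  omega

/-- Existence of the plane of a flag. -/
lemma exists_plane (h : Sys H U) (hW : NW H K) (hR : NoRich H K) (hK : 2 ≤ K) {l : Finset V}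
    {u : V} (hl : l ∈ H) (huU : u ∈ U) (hul : u ∉ l) (hP : ¬ IsP H l u) :
    ∃ M, TightAt H K l u M ∧ M ⊆ U ∧ ∀ Y, TightAt H K l u Y → Y ⊆ M := by
  classical
  have h0 : TightAt H K l u (insert u l) := by
    refine ⟨?_, ?_, subset_insert _ _, mem_insert_self _ _⟩
    · rw [card_insert_of_notMem hul, h.card3 l hl]; omega
    · have h1 : 0 < #(inn H (insert u l)) :=
        card_pos.2 ⟨l, mem_inn.2 ⟨hl, subset_insert _ _⟩⟩
      rw [card_insert_of_notMem hul, h.card3 l hl]
      omega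
  have h0U : insert u l ⊆ U := insert_subset huU (h.sub l hl)
  have hcut : ∀ Y, TightAt H K l u Y → TightAt H K l u (Y ∩ U) ∧ Y ⊆ U := by
    intro Y hY
    have h1 : inn H (Y ∩ U) = inn H Y := by
      ext A
      rw [mem_inn, mem_inn]
      exact ⟨fun hA => ⟨hA.1, hA.2.trans inter_subset_left⟩,
        fun hA => ⟨hA.1, subset_inter hA.2 (h.sub A hA.1)⟩⟩
    have h2 : #(Y ∩ U) ≤ #Y := card_le_card inter_subset_left
    have h3 : TightAt H K l u (Y ∩ U) :=
      ⟨h2.trans hY.card_le, by rw [h1]; exact h2.trans hY.tight,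
        subset_inter hY.hl (h.sub l hl), mem_inter.2 ⟨hY.hu, huU⟩⟩
    refine ⟨h3, ?_⟩
    by_contra hYU
    -- then `Y ∩ U` is too rich
    have h4 : #(Y ∩ U) < #Y := by
      apply card_lt_card
      refine ⟨inter_subset_left, fun h' => hYU (h'.trans inter_subset_right)⟩
    have h5 : 4 ≤ #(Y ∩ U) := by
      have := card_le_card (insert_subset h3.hu h3.hl)
      rw [card_insert_of_notMem hul, h.card3 l hl] at this
      omega
    have h6 : #(inn H (Y ∩ U)) + 3 ≤ #(Y ∩ U) := by
      apply h.card_inn_le hR h5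
      · have := h3.card_le
        omega
      · intro h6 h6'
        exact hP ⟨Y ∩ U, h6, h6', h3.hl, h3.hu⟩
    have h7 := hY.tight
    rw [← h1] at h7
    omega
  -- the tight sets are subsets of `U`
  set F := U.powerset.filter (fun X => TightAt H K l u X) with hF
  have hne : F.Nonempty := ⟨insert u l, mem_filter.2 ⟨mem_powerset.2 h0U, h0⟩⟩
  obtain ⟨M, hM, hmax⟩ := exists_max_image F card hne
  obtain ⟨hMU, hMt⟩ := mem_filter.1 hM
  refine ⟨M, hMt, mem_powerset.1 hMU, ?_⟩
  intro Y hY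
  have h1 := hMt.union h hW hR hl hul hP hY
  have h2 : M ∪ Y ∈ F := mem_filter.2 ⟨mem_powerset.2
    (union_subset (mem_powerset.1 hMU) (hcut Y hY).2), h1⟩
  have h3 := hmax _ h2
  have h4 : M = M ∪ Y := eq_of_subset_of_card_le subset_union_left h3
  rw [h4]
  exact subset_union_right

end Pool.Agent.Helper18.Win
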