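import Mathlib

/-!
# A numerical inequality for degree sequences of planes
-/

set_option autoImplicit false

namespace Pool.Agent.Helper18.Win

/-- The case where the third degree is bounded by the second one. -/
lemma numeric_case1 {b p m : ℤ} (hb : 1 ≤ b) (hp : 0 ≤ p) (hm : 0 ≤ m) (hpm : p ≤ b - 1 + m)
    (hh : 5 ≤ 3 * b + p - 3 + m) :
    0 ≤ 3 * (b - 3) ^ 2 + p * (6 * b - 14 - p) + m * (3 * m + 10 * b + 6 * p - 18) ∧
    (3 * (b - 3) ^ 2 + p * (6 * b - 14 - p) + m * (3 * m + 10 * b + 6 * p - 18) = 0 →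
      3 * b + p - 3 + m = 6) := by
  rcases (by omega : b = 1 ∨ b = 2 ∨ 3 ≤ b) with rfl | rfl | hb3
  · have key : 0 < 3 * ((1 : ℤ) - 3) ^ 2 + p * (6 * 1 - 14 - p) +
        m * (3 * m + 10 * 1 + 6 * p - 18) := by
      obtain ⟨r, rfl⟩ : ∃ r, m = p + r := ⟨m - p, by ring⟩
      have hr : 0 ≤ r := by omega
      have e1 : 3 * ((1 : ℤ) - 3) ^ 2 + p * (6 * 1 - 14 - p) +
        (p + r) * (3 * (p + r) + 10 * 1 + 6 * p - 18) =
        8 * (p - 1) ^ 2 + 4 + 12 * (p * r) + 3 * r ^ 2 - 8 * r := by ring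
      rw [e1]
      rcases (by omega : p = 0 ∨ 1 ≤ p) with rfl | hp1
      · nlinarith [sq_nonneg (3 * r - 4)]
      · have : r ≤ p * r := by nlinarith
        nlinarith [sq_nonneg (p - 1), sq_nonneg r]
    exact ⟨key.le, fun h => absurd h key.ne'⟩
  · have hm1 : 1 ≤ m := by omega
    have h1 : p * p ≤ p * (1 + m) := by
      apply mul_le_mul_of_nonneg_left _ hp
      omega
    have h2 : p ≤ p * m := by nlinarith
    have key : 0 < 3 * ((2 : ℤ) - 3) ^ 2 + p * (6 * 2 - 14 - p) +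
        m * (3 * m + 10 * 2 + 6 * p - 18) := by nlinarith [mul_nonneg hp hm]
    exact ⟨key.le, fun h => absurd h key.ne'⟩
  · have h1 : p * p ≤ p * (b - 1 + m) := mul_le_mul_of_nonneg_left hpm hp
    have h2 : 0 ≤ m * m := mul_nonneg hm hm
    have h3 : 0 ≤ p * m := mul_nonneg hp hm
    have h4 : 0 ≤ p * (b - 3) := mul_nonneg hp (by omega)
    have h5 : 0 ≤ m * (b - 3) := mul_nonneg hm (by omega)
    refine ⟨by nlinarith [sq_nonneg (b - 3)], fun h => ?_⟩
    have h6 : p = 0 := by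
      by_contra hne
      have : 1 ≤ p := by omega
      nlinarith [sq_nonneg (b - 3)]
    subst h6
    have h7 : m = 0 := by
      by_contra hne
      have : 1 ≤ m := by omega
      nlinarith [sq_nonneg (b - 3)]
    subst h7
    have h8 : (b - 3) ^ 2 = 0 := by linarith
    have h9 : b - 3 = 0 := by
      exact pow_eq_zero_iff (two_ne_zero) |>.1 h8
    omega

/-- The case where the three degrees are bounded by the number of lines. -/
lemma numeric_case2 {c q p : ℤ} (hc : 2 ≤ c) (hq : 0 ≤ q) (hp : 0 ≤ p) (hpc : p ≤ c - 1)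
    (hh : 5 ≤ 3 * c + 2 * q + p - 3) :
    0 ≤ 3 * (c - 3) ^ 2 + 4 * q ^ 2 + p * (6 * c - 14 - p) + q * (12 * c - 28) + 4 * (q * p) ∧
    (3 * (c - 3) ^ 2 + 4 * q ^ 2 + p * (6 * c - 14 - p) + q * (12 * c - 28) + 4 * (q * p) = 0 →
      3 * c + 2 * q + p - 3 = 6) := by
  have hqp : 0 ≤ q * p := mul_nonneg hq hp
  rcases (by omega : c = 2 ∨ 3 ≤ c) with rfl | hc3
  · rcases (by omega : p = 0 ∨ p = 1) with rfl | rfl
    · have hq1 : 1 ≤ q := by omega
      have key : 0 < 3 * ((2 : ℤ) - 3) ^ 2 + 4 * q ^ 2 + 0 * (6 * 2 - 14 - 0) +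
          q * (12 * 2 - 28) + 4 * (q * 0) := by nlinarith
      exact ⟨key.le, fun h => absurd h key.ne'⟩
    · have hq1 : 1 ≤ q := by omega
      have key : 0 < 3 * ((2 : ℤ) - 3) ^ 2 + 4 * q ^ 2 + 1 * (6 * 2 - 14 - 1) +
          q * (12 * 2 - 28) + 4 * (q * 1) := by nlinarith
      exact ⟨key.le, fun h => absurd h key.ne'⟩
  · have h1 : p * p ≤ p * (c - 1) := mul_le_mul_of_nonneg_left hpc hp
    have h4 : 0 ≤ p * (c - 3) := mul_nonneg hp (by omega)
    have h5 : 0 ≤ q * (c - 3) := mul_nonneg hq (by omega)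
    refine ⟨by nlinarith [sq_nonneg (c - 3), sq_nonneg q], fun h => ?_⟩
    have h6 : p = 0 := by
      by_contra hne
      have : 1 ≤ p := by omega
      nlinarith [sq_nonneg (c - 3), sq_nonneg q]
    subst h6
    have h7 : q = 0 := by
      by_contra hne
      have : 1 ≤ q := by omega
      nlinarith [sq_nonneg (c - 3), sq_nonneg q]
    subst h7
    have h8 : (c - 3) ^ 2 = 0 := by linarith
    have h9 : c - 3 = 0 := by
      exact pow_eq_zero_iff (two_ne_zero) |>.1 h8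
    omega

/-- The numerical inequality for the three largest degrees of a plane with `h` lines. -/
lemma numeric {h a b c : ℤ} (hh : 5 ≤ h) (hc : 1 ≤ c) (hcb : c ≤ b) (hba : b ≤ a)
    (h2a : 2 * a ≤ h + 2) (hab : a + b ≤ h + 1) (habc : a + b + c ≤ h + 3)
    (h0 : 0 ≤ 2 * h - 1 - a - b) :
    4 * (a * (a - 1) + b * (b - 1) + c * (2 * h - 1 - a - b)) ≤ 3 * h ^ 2 ∧
    (4 * (a * (a - 1) + b * (b - 1) + c * (2 * h - 1 - a - b)) = 3 * h ^ 2 → h = 6) := by
  rcases le_total (a + 2 * b) (h + 3) with hcase | hcase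
  · have h1 : c * (2 * h - 1 - a - b) ≤ b * (2 * h - 1 - a - b) :=
      mul_le_mul_of_nonneg_right hcb h0
    obtain ⟨p, rfl⟩ : ∃ p, a = b + p := ⟨a - b, by ring⟩
    obtain ⟨m, rfl⟩ : ∃ m, h = 3 * b + p - 3 + m := ⟨h - (3 * b + p - 3), by ring⟩
    obtain ⟨k1, k2⟩ := numeric_case1 (b := b) (p := p) (m := m) (by omega) (by omega) (by omega)
      (by omega) (by omega)
    have e1 : 3 * (3 * b + p - 3 + m) ^ 2 - 4 * ((b + p) * (b + p - 1) + b * (b - 1) +
        b * (2 * (3 * b + p - 3 + m) - 1 - (b + p) - b)) =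
        3 * (b - 3) ^ 2 + p * (6 * b - 14 - p) + m * (3 * m + 10 * b + 6 * p - 18) := by ring
    refine ⟨by linarith, fun heq => ?_⟩
    apply k2
    linarith
  · have hc2 : 2 ≤ h + 3 - a - b := by omega
    have h1 : c * (2 * h - 1 - a - b) ≤ (h + 3 - a - b) * (2 * h - 1 - a - b) :=
      mul_le_mul_of_nonneg_right (by omega) h0
    obtain ⟨c', hc'⟩ : ∃ c', c' = h + 3 - a - b := ⟨_, rfl⟩
    obtain ⟨q, rfl⟩ : ∃ q, b = c' + q := ⟨b - c', by ring⟩
    obtain ⟨p, rfl⟩ : ∃ p, a = c' + q + p := ⟨a - (c' + q), by ring⟩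
    obtain rfl : h = 3 * c' + 2 * q + p - 3 := by linarith
    obtain ⟨k1, k2⟩ := numeric_case2 (c := c') (q := q) (p := p) (by omega) (by omega) (by omega)
      (by omega) (by omega)
    have e1 : 3 * (3 * c' + 2 * q + p - 3) ^ 2 - 4 * ((c' + q + p) * (c' + q + p - 1) +
        (c' + q) * (c' + q - 1) + (3 * c' + 2 * q + p - 3 + 3 - (c' + q + p) - (c' + q)) *
          (2 * (3 * c' + 2 * q + p - 3) - 1 - (c' + q + p) - (c' + q))) =
        3 * (c' - 3) ^ 2 + 4 * q ^ 2 + p * (6 * c' - 14 - p) + q * (12 * c' - 28) +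
          4 * (q * p) := by ring
    refine ⟨by linarith, fun heq => ?_⟩
    apply k2
    linarith

end Pool.Agent.Helper18.Win
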