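import Mathlib
import Pool.Agent.Helper18.Win.Basic
import Pool.Agent.Helper18.Win.Numeric

/-!
# Flags of linear triple systems, and the flags of a plane
-/

set_option autoImplicit false

namespace Pool.Agent.Helper18.Win

open Finset

variable {V : Type*} [DecidableEq V]

/-- The number of points of `l` which are on a common line with `u`. -/
def jj (H : Finset (Finset V)) (l : Finset V) (u : V) : ℕ :=
  #(l.filter (fun v => ∃ A ∈ H, u ∈ A ∧ v ∈ A))

/-- The flags: a line of `H` and a point of `U` outside the line. -/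
def flags (H : Finset (Finset V)) (U : Finset V) : Finset (Finset V × V) :=
  (H ×ˢ U).filter (fun p => p.2 ∉ p.1)

/-- The number of ordered pairs of different lines that meet, when summed over all points. -/
def dd (H : Finset (Finset V)) (U : Finset V) : ℕ := ∑ v ∈ U, #(thr H v) * (#(thr H v) - 1)

variable {H : Finset (Finset V)} {U : Finset V} {K : ℕ}

lemma mem_flags {p : Finset V × V} : p ∈ flags H U ↔ p.1 ∈ H ∧ p.2 ∈ U ∧ p.2 ∉ p.1 := by
  rw [flags, mem_filter, mem_product, and_assoc]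

lemma Sys.card_flags (h : Sys H U) : #(flags H U) + 3 * #H = #H * #U := by
  have h1 := card_filter_add_card_filter_not (s := H ×ˢ U) (fun p => p.2 ∉ p.1)
  rw [card_product] at h1
  have h2 : #((H ×ˢ U).filter (fun p => ¬ p.2 ∉ p.1)) = 3 * #H := by
    rw [card_filter, sum_product, mul_comm, ← smul_eq_mul, ← sum_const]
    refine sum_congr rfl fun A hA => ?_
    rw [← card_filter, ← h.card3 A hA]
    congr 1
    ext v
    rw [mem_filter, not_not]
    exact ⟨fun hv => hv.2, fun hv => ⟨h.sub A hA hv, hv⟩⟩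
  rw [h2] at h1
  exact h1

lemma Sys.card_adj (h : Sys H U) {l : Finset V} {v : V} (hl : l ∈ H) (hv : v ∈ l) :
    #(U.filter (fun u => u ∉ l ∧ ∃ A ∈ H, u ∈ A ∧ v ∈ A)) = 2 * (#(thr H v) - 1) := by
  have h1 : U.filter (fun u => u ∉ l ∧ ∃ A ∈ H, u ∈ A ∧ v ∈ A) =
      ((thr H v).erase l).biUnion (fun A => A.erase v) := by
    ext u
    rw [mem_filter, mem_biUnion]
    constructor
    · rintro ⟨_, hul, A, hA, huA, hvA⟩
      refine ⟨A, mem_erase.2 ⟨?_, mem_thr.2 ⟨hA, hvA⟩⟩, mem_erase.2 ⟨?_, huA⟩⟩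
      · rintro rfl; exact hul huA
      · rintro rfl; exact hul hv
    · rintro ⟨A, hA, hu⟩
      obtain ⟨hAl, hA⟩ := mem_erase.1 hA
      obtain ⟨huv, huA⟩ := mem_erase.1 hu
      obtain ⟨hAH, hvA⟩ := mem_thr.1 hA
      refine ⟨h.sub A hAH huA, ?_, A, hAH, huA, hvA⟩
      intro hul
      exact hAl (h.eq_of_mem hAH hl huv huA hvA hul hv)
  rw [h1, card_biUnion]
  · rw [mul_comm, ← smul_eq_mul, ← card_erase_of_mem (mem_thr.2 ⟨hl, hv⟩), ← sum_const]
    refine sum_congr rfl fun A hA => ?_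
    obtain ⟨hAH, hvA⟩ := mem_thr.1 (mem_erase.1 hA).2
    rw [card_erase_of_mem hvA, h.card3 A hAH]
  · intro A hA B hB hAB
    rw [Function.onFun, disjoint_left]
    intro x hxA hxB
    rw [mem_erase] at hxA hxB
    obtain ⟨hAH, hvA⟩ := mem_thr.1 (mem_erase.1 hA).2
    obtain ⟨hBH, hvB⟩ := mem_thr.1 (mem_erase.1 hB).2
    exact hAB (h.eq_of_mem hAH hBH hxA.1 hxA.2 hvA hxB.2 hvB)

/-- The sum of `jj` over all flags. -/
lemma Sys.sum_jj (h : Sys H U) : ∑ p ∈ flags H U, jj H p.1 p.2 = 2 * dd H U := by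
  have h1 : ∑ p ∈ flags H U, jj H p.1 p.2 =
      ∑ l ∈ H, ∑ v ∈ l, #(U.filter (fun u => u ∉ l ∧ ∃ A ∈ H, u ∈ A ∧ v ∈ A)) := by
    rw [flags, sum_filter, sum_product]
    refine sum_congr rfl fun l _ => ?_
    rw [← sum_filter]
    have h2 : ∀ u ∈ U.filter (fun u => u ∉ l), jj H l u =
        ∑ v ∈ l, if ∃ A ∈ H, u ∈ A ∧ v ∈ A then 1 else 0 := by
      intro u _
      rw [jj, card_filter]
    rw [sum_congr rfl h2, sum_comm]
    refine sum_congr rfl fun v _ => ?_
    rw [← card_filter, filter_filter]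
  have h2 : ∀ l ∈ H, ∑ v ∈ l, #(U.filter (fun u => u ∉ l ∧ ∃ A ∈ H, u ∈ A ∧ v ∈ A)) =
      ∑ v ∈ U, if v ∈ l then 2 * (#(thr H v) - 1) else 0 := by
    intro l hl
    rw [← sum_filter]
    have h3 : U.filter (fun v => v ∈ l) = l := by
      ext v
      rw [mem_filter]
      exact ⟨fun hv => hv.2, fun hv => ⟨h.sub l hl hv, hv⟩⟩
    rw [h3]
    exact sum_congr rfl fun v hv => h.card_adj hl hv
  rw [h1, sum_congr rfl h2, sum_comm, dd, mul_sum]
  refine sum_congr rfl fun v _ => ?_
  rw [← sum_filter, sum_const, smul_eq_mul]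
  show #(thr H v) * _ = _
  ring

lemma Sys.card_thr_inter (h : Sys H U) {v w : V} (hvw : v ≠ w) :
    #(thr H v ∩ thr H w) ≤ 1 := by
  rw [card_le_one]
  intro A hA B hB
  obtain ⟨hA1, hA2⟩ := mem_inter.1 hA
  obtain ⟨hB1, hB2⟩ := mem_inter.1 hB
  exact h.eq_of_mem (mem_thr.1 hA1).1 (mem_thr.1 hB1).1 hvw (mem_thr.1 hA1).2 (mem_thr.1 hA2).2
    (mem_thr.1 hB1).2 (mem_thr.1 hB2).2

lemma Sys.dd_le (h : Sys H U) : dd H U ≤ #H * (#H - 1) := by
  have h1 : dd H U = #(U.biUnion (fun v => (thr H v).offDiag)) := by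
    rw [card_biUnion]
    · refine sum_congr rfl fun v _ => ?_
      rw [offDiag_card, Nat.mul_sub, mul_one]
    · intro v _ w _ hvw
      rw [Function.onFun, disjoint_left]
      intro p hp hq
      obtain ⟨h1, h2, h3⟩ := mem_offDiag.1 hp
      obtain ⟨h4, h5, -⟩ := mem_offDiag.1 hq
      exact h3 (h.eq_of_mem (mem_thr.1 h1).1 (mem_thr.1 h2).1 hvw (mem_thr.1 h1).2
        (mem_thr.1 h4).2 (mem_thr.1 h2).2 (mem_thr.1 h5).2)
  have h2 : U.biUnion (fun v => (thr H v).offDiag) ⊆ H.offDiag := by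
    rw [biUnion_subset]
    intro v _
    exact offDiag_mono (thr_subset v)
  rw [h1]
  refine (card_le_card h2).trans ?_
  rw [offDiag_card, Nat.mul_sub, mul_one]

lemma even_dd : Even (dd H U) := by
  unfold dd
  apply Finset.even_sum
  intro v _
  exact Nat.even_mul_pred_self _

/-- The inequality for planes. -/
lemma Sys.plane_ineq (h : Sys H U) (hc : #U = #H + 3)
    (hR : ∀ X ⊆ U, 7 ≤ #X → #(Win.inn H X) + 3 ≤ #X) :
    4 * dd H U ≤ 3 * #H ^ 2 ∧ (4 * dd H U = 3 * #H ^ 2 → 1 ≤ #H → #H = 4 ∧ dd H U = 12) := by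
  rcases Nat.lt_or_ge 4 #H with h5 | h4
  · -- at least five lines
    have hpos : ∀ v ∈ U, 1 ≤ #(thr H v) := by
      intro v hv
      by_contra hcon
      have h0 : thr H v = ∅ := by
        rw [← card_eq_zero]; omega
      have h1 : Win.inn H (U.erase v) = H := by
        rw [Win.inn, filter_eq_self]
        intro A hA x hx
        refine mem_erase.2 ⟨?_, h.sub A hA hx⟩
        rintro rfl
        have : A ∈ thr H x := mem_thr.2 ⟨hA, hx⟩
        rw [h0] at this
        exact absurd this (notMem_empty A)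
      have h2 : #(U.erase v) = #H + 2 := by
        rw [card_erase_of_mem hv]; omega
      have h3 := hR (U.erase v) (erase_subset _ _) (by omega)
      rw [h1] at h3
      omega
    obtain ⟨v1, hv1, hmax1⟩ := exists_max_image U (fun v => #(thr H v))
      (card_pos.1 (by omega))
    obtain ⟨v2, hv2, hmax2⟩ := exists_max_image (U.erase v1) (fun v => #(thr H v))
      (card_pos.1 (by rw [card_erase_of_mem hv1]; omega))
    obtain ⟨v3, hv3, hmax3⟩ := exists_max_image ((U.erase v1).erase v2) (fun v => #(thr H v))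
      (card_pos.1 (by rw [card_erase_of_mem hv2, card_erase_of_mem hv1]; omega))
    have hv2U := (mem_erase.1 hv2).2
    have hv3U := (mem_erase.1 (mem_erase.1 hv3).2).2
    have h21 : v2 ≠ v1 := (mem_erase.1 hv2).1
    have h32 : v3 ≠ v2 := (mem_erase.1 hv3).1
    have h31 : v3 ≠ v1 := (mem_erase.1 (mem_erase.1 hv3).2).1
    set a := #(thr H v1) with ha
    set b := #(thr H v2) with hb
    set c := #(thr H v3) with hcc
    have hba : b ≤ a := hmax1 v2 hv2U
    have hcb : c ≤ b := hmax2 v3 (mem_erase.2 ⟨h31, hv3U⟩)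
    have hc1 : 1 ≤ c := hpos v3 hv3U
    have h2a : 2 * a + 1 ≤ #U := h.card_thr hv1
    have hab : a + b ≤ #H + 1 := by
      have h1 := card_union_add_card_inter (thr H v1) (thr H v2)
      have h2 := h.card_thr_inter h21.symm
      have h3 := card_le_card (union_subset (thr_subset (H := H) v1) (thr_subset v2))
      omega
    have habc : a + b + c ≤ #H + 3 := by
      have h1 := card_union_add_card_inter (thr H v1) (thr H v2)
      have h2 := h.card_thr_inter h21.symm
      have h3 := card_union_add_card_inter (thr H v1 ∪ thr H v2) (thr H v3)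
      have h4 := card_le_card (union_subset (union_subset (thr_subset (H := H) v1)
        (thr_subset v2)) (thr_subset v3))
      have h5 := h.card_thr_inter h31.symm
      have h6 := h.card_thr_inter h32.symm
      have h7 : #((thr H v1 ∪ thr H v2) ∩ thr H v3) ≤ #(thr H v1 ∩ thr H v3) +
          #(thr H v2 ∩ thr H v3) := by
        rw [union_inter_distrib_right]
        exact card_union_le _ _
      omega
    -- the sums, in integers
    have hsum : ∑ v ∈ U, ((#(thr H v) : ℤ) - 1) = 2 * #H - 3 := by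
      rw [sum_sub_distrib, sum_const, nsmul_eq_mul, mul_one]
      have := h.sum_thr
      have h1 : ∑ v ∈ U, (#(thr H v) : ℤ) = 3 * #H := by exact_mod_cast this
      rw [h1, hc]
      push_cast
      ring
    have hsplit : ∀ f : V → ℤ, ∑ v ∈ U, f v =
        f v1 + (f v2 + ∑ v ∈ (U.erase v1).erase v2, f v) := by
      intro f
      rw [add_sum_erase _ _ hv2, add_sum_erase _ _ hv1]
    have hddz : (dd H U : ℤ) = ∑ v ∈ U, (#(thr H v) : ℤ) * ((#(thr H v) : ℤ) - 1) := by
      unfold dd
      rw [Nat.cast_sum]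
      refine sum_congr rfl fun v hv => ?_
      rw [Nat.cast_mul, Nat.cast_sub (hpos v hv), Nat.cast_one]
    have hoth : ∑ v ∈ (U.erase v1).erase v2, ((#(thr H v) : ℤ) - 1) =
        2 * #H - 1 - a - b := by
      have := hsplit (fun v => (#(thr H v) : ℤ) - 1)
      rw [hsum] at this
      linarith
    have h0 : (0 : ℤ) ≤ 2 * #H - 1 - a - b := by
      rw [← hoth]
      apply sum_nonneg
      intro v hv
      have := hpos v (mem_erase.1 (mem_erase.1 hv).2).2
      have : (1 : ℤ) ≤ #(thr H v) := by exact_mod_cast this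
      linarith
    have hothd : ∑ v ∈ (U.erase v1).erase v2, (#(thr H v) : ℤ) * ((#(thr H v) : ℤ) - 1) ≤
        c * (2 * #H - 1 - a - b) := by
      rw [← hoth, mul_sum]
      refine sum_le_sum fun v hv => ?_
      have h1 := hpos v (mem_erase.1 (mem_erase.1 hv).2).2
      have h2 : (1 : ℤ) ≤ #(thr H v) := by exact_mod_cast h1
      have h3 : (#(thr H v) : ℤ) ≤ c := by exact_mod_cast hmax3 v hv
      exact mul_le_mul_of_nonneg_right h3 (by linarith)
    have hdd : (dd H U : ℤ) ≤ a * (a - 1) + b * (b - 1) + c * (2 * #H - 1 - a - b) := by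
      rw [hddz, hsplit]
      linarith
    obtain ⟨k1, k2⟩ := numeric (h := (#H : ℤ)) (a := (a : ℤ)) (b := (b : ℤ)) (c := (c : ℤ))
      (by exact_mod_cast h5) (by exact_mod_cast hc1) (by exact_mod_cast hcb)
      (by exact_mod_cast hba) (by omega) (by exact_mod_cast hab) (by exact_mod_cast habc) h0
    have hle : (4 : ℤ) * dd H U ≤ 3 * (#H : ℤ) ^ 2 := by linarith
    refine ⟨by exact_mod_cast hle, ?_⟩
    intro heq _
    exfalso
    have heq' : (4 : ℤ) * dd H U = 3 * (#H : ℤ) ^ 2 := by exact_mod_cast heq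
    have h6 : (#H : ℤ) = 6 := k2 (by linarith)
    have h6' : #H = 6 := by exact_mod_cast h6
    rw [h6'] at heq
    obtain ⟨k, hk⟩ := even_dd (H := H) (U := U)
    omega
  · -- at most four lines
    have h1 := h.dd_le
    have h2 : 4 * (#H * (#H - 1)) ≤ 3 * #H ^ 2 := by
      interval_cases #H <;> simp
    refine ⟨by omega, ?_⟩
    intro heq h1'
    have h3 : dd H U ≤ #H * (#H - 1) := h1
    interval_cases hH : #H
    · omega
    · omega
    · omega
    · constructor
      · rfl
      · omega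

/-- The exceptional planes: every flag `(l, u)` has `jj ≥ 1`, and there is a flag with
`jj = 2`. -/
lemma Sys.plane_eq (h : Sys H U) (hc : #U = #H + 3) (h4 : #H = 4) (hdd : dd H U = 12)
    (hP : ∀ X ⊆ U, #X = 6 → #(Win.inn H X) ≠ 4) :
    (∀ p ∈ flags H U, 1 ≤ jj H p.1 p.2) ∧ ∃ p ∈ flags H U, jj H p.1 p.2 = 2 := by
  have hpos : ∀ v ∈ U, 1 ≤ #(thr H v) := by
    intro v hv
    by_contra hcon
    have h0 : thr H v = ∅ := by
      rw [← card_eq_zero]; omega
    have h1 : Win.inn H (U.erase v) = H := by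
      rw [Win.inn, filter_eq_self]
      intro A hA x hx
      refine mem_erase.2 ⟨?_, h.sub A hA hx⟩
      rintro rfl
      have : A ∈ thr H x := mem_thr.2 ⟨hA, hx⟩
      rw [h0] at this
      exact absurd this (notMem_empty A)
    have h2 : #(U.erase v) = 6 := by
      rw [card_erase_of_mem hv]; omega
    apply hP (U.erase v) (erase_subset _ _) h2
    rw [h1, h4]
  -- any two lines meet
  have hmeet : ∀ A ∈ H, ∀ B ∈ H, A ≠ B → ∃ v ∈ A, v ∈ B := by
    have h1 : dd H U = #(U.biUnion (fun v => (thr H v).offDiag)) := by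
      rw [card_biUnion]
      · refine sum_congr rfl fun v _ => ?_
        rw [offDiag_card, Nat.mul_sub, mul_one]
      · intro v _ w _ hvw
        rw [Function.onFun, disjoint_left]
        intro p hp hq
        obtain ⟨h1, h2, h3⟩ := mem_offDiag.1 hp
        obtain ⟨h4, h5, -⟩ := mem_offDiag.1 hq
        exact h3 (h.eq_of_mem (mem_thr.1 h1).1 (mem_thr.1 h2).1 hvw (mem_thr.1 h1).2
          (mem_thr.1 h4).2 (mem_thr.1 h2).2 (mem_thr.1 h5).2)
    have h2 : U.biUnion (fun v => (thr H v).offDiag) ⊆ H.offDiag := by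
      rw [biUnion_subset]
      intro v _
      exact offDiag_mono (thr_subset v)
    have h3 : U.biUnion (fun v => (thr H v).offDiag) = H.offDiag := by
      apply eq_of_subset_of_card_le h2
      rw [← h1, hdd, offDiag_card, h4]
    intro A hA B hB hAB
    have h5 : (A, B) ∈ H.offDiag := mem_offDiag.2 ⟨hA, hB, hAB⟩
    rw [← h3] at h5
    obtain ⟨v, _, hv⟩ := mem_biUnion.1 h5
    obtain ⟨h6, h7, _⟩ := mem_offDiag.1 hv
    exact ⟨v, (mem_thr.1 h6).2, (mem_thr.1 h7).2⟩
  refine ⟨?_, ?_⟩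
  · intro p hp
    obtain ⟨hl, hu, hul⟩ := mem_flags.1 hp
    obtain ⟨B, hB⟩ := card_pos.1 (hpos p.2 hu)
    obtain ⟨hBH, huB⟩ := mem_thr.1 hB
    have hne : p.1 ≠ B := by
      intro heq
      exact hul (heq ▸ huB)
    obtain ⟨v, hv1, hv2⟩ := hmeet p.1 hl B hBH hne
    exact card_pos.2 ⟨v, mem_filter.2 ⟨hv1, B, hBH, huB, hv2⟩⟩
  · -- a vertex of degree two
    have hdeg : ∃ u ∈ U, #(thr H u) = 2 := by
      by_contra hcon
      push Not at hcon
      have h1 : ∀ v ∈ U, Even (#(thr H v) - 1) := by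
        intro v hv
        have h2 := h.card_thr hv
        have h3 := hpos v hv
        have h5 := hcon v hv
        have h6 : #(thr H v) = 1 ∨ #(thr H v) = 3 := by omega
        rcases h6 with h6 | h6 <;> rw [h6] <;> decide
      have h2 : Even (∑ v ∈ U, (#(thr H v) - 1)) := even_sum _ h1
      have h3 : ∑ v ∈ U, (#(thr H v) - 1) + #U = 3 * #H := by
        rw [← h.sum_thr, card_eq_sum_ones, ← sum_add_distrib]
        refine sum_congr rfl fun v hv => ?_
        have := hpos v hv
        omega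
      obtain ⟨k, hk⟩ := h2
      omega
    obtain ⟨u, hu, hu2⟩ := hdeg
    obtain ⟨l, hl, hul⟩ : ∃ l ∈ H, u ∉ l := by
      by_contra hcon
      push Not at hcon
      have : thr H u = H := by
        rw [thr, filter_eq_self]
        exact hcon
      rw [this] at hu2
      omega
    refine ⟨(l, u), mem_flags.2 ⟨hl, hu, hul⟩, ?_⟩
    -- the points of `l` adjacent to `u` correspond to the lines through `u`
    show jj H l u = 2
    rw [← hu2]
    symm
    apply card_bij' (i := fun A _ => if h : ∃ v ∈ l, v ∈ A then h.choose else u)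
      (j := fun v _ => if h : ∃ A ∈ H, u ∈ A ∧ v ∈ A then h.choose else l)
    · intro A hA
      obtain ⟨hAH, huA⟩ := mem_thr.1 hA
      have hne : l ≠ A := by rintro rfl; exact hul huA
      have hex : ∃ v ∈ l, v ∈ A := hmeet l hl A hAH hne
      rw [dif_pos hex]
      exact mem_filter.2 ⟨hex.choose_spec.1, A, hAH, huA, hex.choose_spec.2⟩
    · intro v hv
      obtain ⟨hvl, hex⟩ := mem_filter.1 hv
      rw [dif_pos hex]
      exact mem_thr.2 ⟨hex.choose_spec.1, hex.choose_spec.2.1⟩
    · intro A hA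
      obtain ⟨hAH, huA⟩ := mem_thr.1 hA
      have hne : l ≠ A := by rintro rfl; exact hul huA
      have hex : ∃ v ∈ l, v ∈ A := hmeet l hl A hAH hne
      have hex2 : ∃ B ∈ H, u ∈ B ∧ hex.choose ∈ B := ⟨A, hAH, huA, hex.choose_spec.2⟩
      simp only [dif_pos hex, dif_pos hex2]
      have h1 := hex2.choose_spec
      have h2 : u ≠ hex.choose := by
        intro heq
        exact hul (heq ▸ hex.choose_spec.1)
      exact h.eq_of_mem h1.1 hAH h2 h1.2.1 h1.2.2 huA hex.choose_spec.2
    · intro v hv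
      obtain ⟨hvl, hex⟩ := mem_filter.1 hv
      have hex2 : ∃ w ∈ l, w ∈ hex.choose := ⟨v, hvl, hex.choose_spec.2.2⟩
      simp only [dif_pos hex, dif_pos hex2]
      by_contra hne
      have h1 := hex.choose_spec
      have h2 := hex2.choose_spec
      have h3 := h.eq_of_mem h1.1 hl hne h2.2 h1.2.2 h2.1 hvl
      exact hul (h3 ▸ h1.2.1)

end Pool.Agent.Helper18.Win
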