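import Mathlib
import Pool.Agent.Helper18.Win.Plane

/-!
# The planes partition the flags
-/

set_option autoImplicit false

namespace Pool.Agent.Helper18.Win

open Finset

variable {V : Type*} [DecidableEq V] {H : Finset (Finset V)} {U : Finset V} {K : ℕ}

lemma inn_inn {X M : Finset V} (hX : X ⊆ M) : inn (inn H M) X = inn H X := by
  ext A
  rw [mem_inn, mem_inn, mem_inn]
  exact ⟨fun h => ⟨h.1.1, h.2⟩, fun h => ⟨⟨h.1, h.2.trans hX⟩, h.2⟩⟩

/-- In a Pasch configuration any two lines meet. -/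
lemma Sys.meet_of_six (h : Sys H U) (hU : #U ≤ 6) (hH : 3 ≤ #H) {A B : Finset V} (hA : A ∈ H)
    (hB : B ∈ H) : ∃ v ∈ A, v ∈ B := by
  by_contra hcon
  push Not at hcon
  have hd : Disjoint A B := disjoint_left.2 hcon
  have hAB : A ≠ B := by
    rintro rfl
    obtain ⟨v, hv⟩ := card_pos.1 (by rw [h.card3 A hA]; omega : 0 < #A)
    exact hcon v hv hv
  have h1 : #(A ∪ B) = 6 := by
    rw [card_union_of_disjoint hd, h.card3 A hA, h.card3 B hB]
  have h2 : U = A ∪ B :=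
    (eq_of_subset_of_card_le (union_subset (h.sub A hA) (h.sub B hB)) (by omega)).symm
  obtain ⟨C, hC, hCAB⟩ : ∃ C ∈ H, C ∉ ({A, B} : Finset (Finset V)) := by
    by_contra hcon'
    push Not at hcon'
    have h3 : H ⊆ {A, B} := hcon'
    have h4 := (card_le_card h3).trans card_le_two
    omega
  rw [mem_insert, mem_singleton, not_or] at hCAB
  have h3 : C ⊆ (A ∩ C) ∪ (B ∩ C) := by
    intro x hx
    have := h.sub C hC hx
    rw [h2] at this
    rcases mem_union.1 this with h' | h'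
    · exact mem_union_left _ (mem_inter.2 ⟨h', hx⟩)
    · exact mem_union_right _ (mem_inter.2 ⟨h', hx⟩)
  have h4 := (card_le_card h3).trans (card_union_le _ _)
  have h5 := h.lin A hA C hC (Ne.symm hCAB.1)
  have h6 := h.lin B hB C hC (Ne.symm hCAB.2)
  rw [h.card3 C hC] at h4
  omega

lemma jj_le (h : Sys H U) {l : Finset V} (hl : l ∈ H) (u : V) : jj H l u ≤ 3 := by
  rw [← h.card3 l hl]
  exact card_le_card (filter_subset _ _)

lemma Sys.two_le_jj (h : Sys H U) {l : Finset V} {u : V} (hl : l ∈ H) (hul : u ∉ l)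
    (hP : IsP H l u) : 2 ≤ jj H l u := by
  obtain ⟨X, hX6, hX4, hlX, huX⟩ := hP
  have hS := h.inn X
  have hlX' : l ∈ Win.inn H X := mem_inn.2 ⟨hl, hlX⟩
  -- `u` has degree two
  have hdeg : 2 ≤ #(thr (Win.inn H X) u) := by
    by_contra hcon
    have h1 := hS.sum_thr
    rw [← add_sum_erase _ _ huX] at h1
    have h2 : ∑ v ∈ X.erase u, #(thr (Win.inn H X) v) ≤ ∑ _v ∈ X.erase u, 2 := by
      refine sum_le_sum fun v hv => ?_
      have := hS.card_thr (mem_of_mem_erase hv)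
      omega
    rw [sum_const, card_erase_of_mem huX, smul_eq_mul] at h2
    omega
  obtain ⟨A, hA, B, hB, hAB⟩ := one_lt_card.1 hdeg
  obtain ⟨hAX, huA⟩ := mem_thr.1 hA
  obtain ⟨hBX, huB⟩ := mem_thr.1 hB
  obtain ⟨a, hal, haA⟩ := hS.meet_of_six (by omega) (by omega) hlX' hAX
  obtain ⟨b, hbl, hbB⟩ := hS.meet_of_six (by omega) (by omega) hlX' hBX
  have hab : a ≠ b := by
    rintro rfl
    apply hAB
    apply hS.eq_of_mem hAX hBX (x := u) (y := a) _ huA haA huB hbB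
    rintro rfl
    exact hul hal
  apply one_lt_card.2
  exact ⟨a, mem_filter.2 ⟨hal, A, (mem_inn.1 hAX).1, huA, haA⟩, b,
    mem_filter.2 ⟨hbl, B, (mem_inn.1 hBX).1, huB, hbB⟩, hab⟩

/-- Every line is in at most three flags of Pasch type. -/
lemma Sys.card_isP (h : Sys H U) (hR : NoRich H K) (hK : 3 ≤ K) {l : Finset V} (hl : l ∈ H)
    (s : Finset V) (hs : ∀ u ∈ s, u ∉ l ∧ IsP H l u) : #s ≤ 3 := by
  rcases s.eq_empty_or_nonempty with rfl | ⟨u, hu⟩
  · simp
  obtain ⟨hul, X, hX6, hX4, hlX, huX⟩ := hs u hu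
  have hsub : s ⊆ X \ l := by
    intro w hw
    obtain ⟨hwl, Y, hY6, hY4, hlY, hwY⟩ := hs w hw
    refine mem_sdiff.2 ⟨?_, hwl⟩
    by_contra hwX
    -- `X ≠ Y`, both contain `l`
    have h1 := supermod (H := H) X Y
    have h2 := card_union_add_card_inter X Y
    have h3 : 3 ≤ #(X ∩ Y) := by
      rw [← h.card3 l hl]
      exact card_le_card (subset_inter hlX hlY)
    have h4 : #(X ∩ Y) < 6 := by
      rw [← hY6]
      apply card_lt_card
      refine ⟨inter_subset_right, fun h' => hwX (mem_inter.1 (h' hwY)).1⟩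
    have hS := h.inn (X ∩ Y)
    have h5 : #(Win.inn H (X ∩ Y)) + 2 ≤ #(X ∩ Y) := by
      rcases (by omega : #(X ∩ Y) = 3 ∨ #(X ∩ Y) = 4 ∨ #(X ∩ Y) = 5) with h' | h' | h'
      · have := hS.card_le_of_three (by omega); omega
      · have := hS.card_le_of_four (by omega); omega
      · have := hS.card_le_of_five (by omega); omega
    have h6 := hR (X ∪ Y) (by omega) (by omega)
    omega
  have h1 := card_le_card hsub
  rw [card_sdiff_of_subset hlX, hX6, h.card3 l hl] at h1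
  exact h1

/-- The data of the plane of a good flag. -/
structure PlaneAt (H : Finset (Finset V)) (U : Finset V) (K : ℕ) (l : Finset V) (u : V)
    (M : Finset V) : Prop where
  tight : TightAt H K l u M
  sub : M ⊆ U
  max : ∀ Y, TightAt H K l u Y → Y ⊆ M

lemma PlaneAt.card_eq (h : Sys H U) (hR : NoRich H K) {l : Finset V} {u : V}
    {M : Finset V} (hl : l ∈ H) (hul : u ∉ l) (hP : ¬ IsP H l u) (hM : PlaneAt H U K l u M) :
    #M = #(inn H M) + 3 := by
  have h1 := hM.tight.tight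
  have h2 : 4 ≤ #M := by
    have := card_le_card (insert_subset hM.tight.hu hM.tight.hl)
    rw [card_insert_of_notMem hul, h.card3 l hl] at this
    omega
  have h3 : #(inn H M) + 3 ≤ #M := by
    apply h.card_inn_le hR h2
    · have := hM.tight.card_le; omega
    · intro h6 h6'
      exact hP ⟨M, h6, h6', hM.tight.hl, hM.tight.hu⟩
  omega

lemma PlaneAt.closed (h : Sys H U) (hW : NW H K) {l : Finset V} {u : V}
    {M : Finset V} (hM : PlaneAt H U K l u M) {A : Finset V}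
    (hA : A ∈ H) {x y : V} (hxy : x ≠ y) (hxA : x ∈ A) (hyA : y ∈ A) (hxM : x ∈ M)
    (hyM : y ∈ M) : A ⊆ M := by
  by_contra hAM
  have h1 : 2 ≤ #(A ∩ M) := by
    apply one_lt_card.2
    exact ⟨x, mem_inter.2 ⟨hxA, hxM⟩, y, mem_inter.2 ⟨hyA, hyM⟩, hxy⟩
  have h2 := card_union_add_card_inter A M
  rw [h.card3 A hA] at h2
  have h3 : #(A ∩ M) < 3 := by
    rw [← h.card3 A hA]
    apply card_lt_card
    refine ⟨inter_subset_left, fun h' => hAM (h'.trans inter_subset_right)⟩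
  have h4 : #(inn H M) + 1 ≤ #(inn H (A ∪ M)) := by
    have h5 : A ∉ inn H M := fun h' => hAM (mem_inn.1 h').2
    rw [← card_insert_of_notMem h5]
    apply card_le_card
    rw [insert_subset_iff]
    refine ⟨mem_inn.2 ⟨hA, subset_union_left⟩, ?_⟩
    intro B hB
    exact mem_inn.2 ⟨(mem_inn.1 hB).1, (mem_inn.1 hB).2.trans subset_union_right⟩
  have h5 := hM.tight.tight
  have h6 := hM.tight.card_le
  have h7 : #(A ∪ M) ≤ K + 2 := by
    by_contra hcon
    push Not at hcon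
    have := hW.card_inn (X := A ∪ M) (by omega) (by omega)
    omega
  have h8 : TightAt H K l u (A ∪ M) :=
    ⟨h7, by omega, hM.tight.hl.trans subset_union_right, mem_union_right _ hM.tight.hu⟩
  exact hAM (subset_union_left.trans (hM.max _ h8))

lemma PlaneAt.eq {l l' : Finset V} {u u' : V}
    {M M' : Finset V} (hM : PlaneAt H U K l u M) (hM' : PlaneAt H U K l' u' M')
    (hl' : l' ⊆ M) (hu' : u' ∈ M) : M' = M := by
  have h1 : M ⊆ M' := hM'.max M ⟨hM.tight.card_le, hM.tight.tight, hl', hu'⟩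
  apply Subset.antisymm _ h1
  exact hM.max M' ⟨hM'.tight.card_le, hM'.tight.tight, hM.tight.hl.trans h1,
    h1 hM.tight.hu⟩

/-- The contribution of one plane. -/
lemma PlaneAt.main (h : Sys H U) (hW : NW H K) (hR : NoRich H K)
    {l : Finset V} {u : V} {M : Finset V} (hl : l ∈ H) (hul : u ∉ l) (hP : ¬ IsP H l u)
    (hM : PlaneAt H U K l u M) (F : Finset (Finset V × V))
    (hF : ∀ p, p ∈ F ↔ p ∈ flags (inn H M) M ∧ ¬ IsP H p.1 p.2) :
    0 ≤ ∑ p ∈ F, ((3 : ℤ) - 2 * jj H p.1 p.2) ∧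
    (#(F.filter (fun p => jj H p.1 p.2 = 0)) : ℤ) ≤
      K ^ 2 * ∑ p ∈ F, ((3 : ℤ) - 2 * jj H p.1 p.2) ∧
    (#F : ℤ) ≤ K ^ 2 * ∑ p ∈ F, ((3 : ℤ) - 2 * jj H p.1 p.2) +
      16 * #(F.filter (fun p => jj H p.1 p.2 = 2)) := by
  classical
  set HM := inn H M with hHM
  have hS : Sys HM M := h.inn M
  have hcard : #M = #HM + 3 := hM.card_eq h hR hl hul hP
  have hlM : l ∈ HM := mem_inn.2 ⟨hl, hM.tight.hl⟩
  have hpos : 1 ≤ #HM := card_pos.2 ⟨l, hlM⟩
  have hRM : ∀ X ⊆ M, 7 ≤ #X → #(inn HM X) + 3 ≤ #X := by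
    intro X hX h7
    rw [inn_inn hX]
    apply hR X h7
    have h1 := card_le_card hX
    have h2 := hM.tight.card_le
    omega
  have hjj : ∀ p ∈ flags HM M, jj H p.1 p.2 = jj HM p.1 p.2 := by
    intro p hp
    obtain ⟨h1, h2, h3⟩ := mem_flags.1 hp
    unfold jj
    congr 1
    apply filter_congr
    intro v hv
    constructor
    · rintro ⟨A, hA, huA, hvA⟩
      refine ⟨A, mem_inn.2 ⟨hA, ?_⟩, huA, hvA⟩
      refine hM.closed h hW hA (x := p.2) (y := v) ?_ huA hvA h2 (hS.sub _ h1 hv)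
      rintro rfl
      exact h3 hv
    · rintro ⟨A, hA, huA, hvA⟩
      exact ⟨A, (mem_inn.1 hA).1, huA, hvA⟩
  have hcf : #(flags HM M) = #HM ^ 2 := by
    have h1 := hS.card_flags
    rw [hcard] at h1
    have h2 : #HM * (#HM + 3) = #HM ^ 2 + 3 * #HM := by ring
    omega
  -- split the flags of the plane
  set P := (flags HM M).filter (fun p => IsP H p.1 p.2) with hPdef
  have hFeq : F = (flags HM M).filter (fun p => ¬ IsP H p.1 p.2) := by
    ext p
    rw [hF, mem_filter]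
  have hFsub : F ⊆ flags HM M := by rw [hFeq]; exact filter_subset _ _
  have hsum : ∑ p ∈ P, ((3 : ℤ) - 2 * jj H p.1 p.2) + ∑ p ∈ F, ((3 : ℤ) - 2 * jj H p.1 p.2) =
      3 * (#HM : ℤ) ^ 2 - 4 * dd HM M := by
    rw [hFeq, hPdef, sum_filter_add_sum_filter_not, sum_sub_distrib, sum_const, nsmul_eq_mul,
      ← mul_sum]
    have h1 : ∑ p ∈ flags HM M, (jj H p.1 p.2 : ℤ) = 2 * dd HM M := by
      rw [sum_congr rfl (fun p hp => by rw [hjj p hp])]
      exact_mod_cast hS.sum_jj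
    rw [h1, hcf]
    push_cast
    ring
  have hPsum : ∑ p ∈ P, ((3 : ℤ) - 2 * jj H p.1 p.2) ≤ - #P := by
    have h1 : ∑ p ∈ P, ((3 : ℤ) - 2 * jj H p.1 p.2) ≤ ∑ _p ∈ P, (-1 : ℤ) := by
      refine sum_le_sum fun p hp => ?_
      obtain ⟨h1, h2⟩ := mem_filter.1 hp
      obtain ⟨h3, h4, h5⟩ := mem_flags.1 h1
      have := h.two_le_jj (mem_inn.1 h3).1 h5 h2
      have h6 : (2 : ℤ) ≤ jj H p.1 p.2 := by exact_mod_cast this
      linarith
    rw [sum_const, nsmul_eq_mul] at h1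
    linarith
  obtain ⟨k1, k2⟩ := hS.plane_ineq hcard hRM
  have k1' : (4 : ℤ) * dd HM M ≤ 3 * (#HM : ℤ) ^ 2 := by exact_mod_cast k1
  have hP0 : (0 : ℤ) ≤ #P := Int.natCast_nonneg _
  have hval : 0 ≤ ∑ p ∈ F, ((3 : ℤ) - 2 * jj H p.1 p.2) := by linarith
  refine ⟨hval, ?_⟩
  -- the number of flags is at most `K ^ 2`
  have hFK : (#F : ℤ) ≤ K ^ 2 := by
    have h1 : #F ≤ #HM ^ 2 := by
      rw [← hcf]
      exact card_le_card hFsub
    have h2 : #HM ≤ K := by
      have := hM.tight.card_le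
      omega
    have h3 : #F ≤ K ^ 2 := h1.trans (Nat.pow_le_pow_left h2 2)
    exact_mod_cast h3
  have hF0K : (#(F.filter (fun p => jj H p.1 p.2 = 0)) : ℤ) ≤ K ^ 2 := by
    refine le_trans ?_ hFK
    exact_mod_cast card_le_card (filter_subset _ _)
  rcases lt_or_ge 0 (∑ p ∈ F, ((3 : ℤ) - 2 * jj H p.1 p.2)) with hv | hv
  · have h1 : (K : ℤ) ^ 2 ≤ K ^ 2 * ∑ p ∈ F, ((3 : ℤ) - 2 * jj H p.1 p.2) :=
      le_mul_of_one_le_right (by positivity) (by omega)
    refine ⟨hF0K.trans h1, ?_⟩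
    have h2 : (0 : ℤ) ≤ #(F.filter (fun p => jj H p.1 p.2 = 2)) := Int.natCast_nonneg _
    linarith
  · -- the extremal planes
    have hv0 : ∑ p ∈ F, ((3 : ℤ) - 2 * jj H p.1 p.2) = 0 := le_antisymm hv hval
    have hPe : #P = 0 := by
      have : (#P : ℤ) ≤ 0 := by linarith
      exact_mod_cast le_antisymm this hP0
    have heq : (4 : ℤ) * dd HM M = 3 * (#HM : ℤ) ^ 2 := by linarith
    have heq' : 4 * dd HM M = 3 * #HM ^ 2 := by exact_mod_cast heq
    obtain ⟨h4, h12⟩ := k2 heq' hpos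
    have hPemp : P = ∅ := card_eq_zero.1 hPe
    have hFall : F = flags HM M := by
      rw [hFeq, filter_eq_self]
      intro p hp hPp
      have : p ∈ P := mem_filter.2 ⟨hp, hPp⟩
      rw [hPemp] at this
      exact notMem_empty _ this
    have hnoP : ∀ X ⊆ M, #X = 6 → #(inn HM X) ≠ 4 := by
      intro X hX h6 h4'
      rw [inn_inn hX] at h4'
      obtain ⟨A, hA⟩ := card_pos.1 (by omega : 0 < #(inn H X))
      obtain ⟨hAH, hAX⟩ := mem_inn.1 hA
      obtain ⟨w, hw⟩ : (X \ A).Nonempty := by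
        rw [← card_pos, card_sdiff_of_subset hAX, h6, h.card3 A hAH]
        omega
      obtain ⟨hwX, hwA⟩ := mem_sdiff.1 hw
      have hmem : (A, w) ∈ P := by
        refine mem_filter.2 ⟨mem_flags.2 ⟨mem_inn.2 ⟨hAH, hAX.trans hX⟩, hX hwX, hwA⟩, ?_⟩
        exact ⟨X, h6, h4', hAX, hwX⟩
      rw [hPemp] at hmem
      exact notMem_empty _ hmem
    obtain ⟨j1, p, hp, hp2⟩ := hS.plane_eq hcard h4 h12 hnoP
    rw [hv0, mul_zero]
    have hn0 : #(F.filter (fun p => jj H p.1 p.2 = 0)) = 0 := by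
      rw [card_eq_zero, filter_eq_empty_iff]
      intro q hq hq0
      rw [hFall] at hq
      have := j1 q hq
      rw [← hjj q hq] at this
      omega
    have hn2 : 1 ≤ #(F.filter (fun p => jj H p.1 p.2 = 2)) := by
      apply card_pos.2
      refine ⟨p, mem_filter.2 ⟨by rw [hFall]; exact hp, ?_⟩⟩
      rw [hjj p hp]
      exact hp2
    have hn2' : (1 : ℤ) ≤ #(F.filter (fun p => jj H p.1 p.2 = 2)) := by exact_mod_cast hn2
    have hF16 : (#F : ℤ) = 16 := by
      rw [hFall, hcf, h4]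
      norm_num
    refine ⟨by rw [hn0]; simp, by linarith⟩

/-- **The counting theorem.** -/
theorem counting (h : Sys H U) (hW : NW H K) (hR : NoRich H K) (hK : 3 ≤ K) :
    ∃ v : ℤ, 0 ≤ v ∧ v ≤ 3 * (#(flags H U) : ℤ) - 4 * dd H U + 9 * #H ∧
      (#((flags H U).filter (fun p => jj H p.1 p.2 = 0)) : ℤ) ≤ K ^ 2 * v ∧
      (#(flags H U) : ℤ) ≤ K ^ 2 * v +
        16 * #((flags H U).filter (fun p => jj H p.1 p.2 = 2)) + 3 * #H := by
  classical
  set G := (flags H U).filter (fun p => ¬ IsP H p.1 p.2) with hG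
  set P := (flags H U).filter (fun p => IsP H p.1 p.2) with hP
  -- the planes
  have hex : ∀ p : Finset V × V, ∃ M, p ∈ G → PlaneAt H U K p.1 p.2 M := by
    intro p
    by_cases hp : p ∈ G
    · obtain ⟨h1, h2⟩ := mem_filter.1 hp
      obtain ⟨h3, h4, h5⟩ := mem_flags.1 h1
      obtain ⟨M, k1, k2, k3⟩ := exists_plane h hW hR (by omega) h3 h4 h5 h2
      exact ⟨M, fun _ => ⟨k1, k2, k3⟩⟩
    · exact ⟨∅, fun h => absurd h hp⟩
  choose pl hpl using hex
  set 𝓜 := G.image pl with h𝓜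
  have hmaps : ∀ p ∈ G, pl p ∈ 𝓜 := fun p hp => mem_image_of_mem _ hp
  have hfib : ∀ M ∈ 𝓜, ∀ p, p ∈ G.filter (fun q => pl q = M) ↔
      p ∈ flags (inn H M) M ∧ ¬ IsP H p.1 p.2 := by
    intro M hM p
    obtain ⟨p0, hp0, rfl⟩ := mem_image.1 hM
    constructor
    · intro hp
      obtain ⟨hpG, hpM⟩ := mem_filter.1 hp
      obtain ⟨h1, h2⟩ := mem_filter.1 hpG
      obtain ⟨h3, h4, h5⟩ := mem_flags.1 h1
      have h6 := hpl p hpG
      rw [hpM] at h6
      exact ⟨mem_flags.2 ⟨mem_inn.2 ⟨h3, h6.tight.hl⟩, h6.tight.hu, h5⟩, h2⟩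
    · rintro ⟨hp, hPp⟩
      obtain ⟨h3, h4, h5⟩ := mem_flags.1 hp
      have h0 := hpl p0 hp0
      have hpG : p ∈ G := mem_filter.2
        ⟨mem_flags.2 ⟨(mem_inn.1 h3).1, h0.sub h4, h5⟩, hPp⟩
      refine mem_filter.2 ⟨hpG, ?_⟩
      exact h0.eq (hpl p hpG) (mem_inn.1 h3).2 h4
  have hmain : ∀ M ∈ 𝓜, 0 ≤ ∑ p ∈ G.filter (fun q => pl q = M), ((3 : ℤ) - 2 * jj H p.1 p.2) ∧
      (#((G.filter (fun q => pl q = M)).filter (fun p => jj H p.1 p.2 = 0)) : ℤ) ≤
        K ^ 2 * ∑ p ∈ G.filter (fun q => pl q = M), ((3 : ℤ) - 2 * jj H p.1 p.2) ∧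
      (#(G.filter (fun q => pl q = M)) : ℤ) ≤
        K ^ 2 * ∑ p ∈ G.filter (fun q => pl q = M), ((3 : ℤ) - 2 * jj H p.1 p.2) +
        16 * #((G.filter (fun q => pl q = M)).filter (fun p => jj H p.1 p.2 = 2)) := by
    intro M hM
    obtain ⟨p0, hp0, rfl⟩ := mem_image.1 hM
    obtain ⟨h1, h2⟩ := mem_filter.1 hp0
    obtain ⟨h3, h4, h5⟩ := mem_flags.1 h1
    exact (hpl p0 hp0).main h hW hR h3 h5 h2 _ (hfib _ hM)
  have hsumG : ∀ f : Finset V × V → ℤ, ∑ p ∈ G, f p =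
      ∑ M ∈ 𝓜, ∑ p ∈ G.filter (fun q => pl q = M), f p :=
    fun f => (sum_fiberwise_of_maps_to hmaps f).symm
  have hcardG : ∀ Q : Finset V × V → Prop, [DecidablePred Q] → (#(G.filter Q) : ℤ) =
      ∑ M ∈ 𝓜, (#((G.filter (fun q => pl q = M)).filter Q) : ℤ) := by
    intro Q _
    have h1 := hsumG (fun p => if Q p then 1 else 0)
    rw [← sum_filter, sum_const, nsmul_eq_mul, mul_one] at h1
    rw [h1]
    refine sum_congr rfl fun M _ => ?_
    rw [← sum_filter, sum_const, nsmul_eq_mul, mul_one]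
  set v := ∑ p ∈ G, ((3 : ℤ) - 2 * jj H p.1 p.2) with hv
  have hv' : v = ∑ M ∈ 𝓜, ∑ p ∈ G.filter (fun q => pl q = M), ((3 : ℤ) - 2 * jj H p.1 p.2) :=
    hsumG _
  -- the Pasch flags
  have hPcard : #P ≤ 3 * #H := by
    have h1 : P ⊆ H.biUnion (fun l => (U.filter (fun u => u ∉ l ∧ IsP H l u)).image
        (fun u => (l, u))) := by
      intro p hp
      obtain ⟨h1, h2⟩ := mem_filter.1 hp
      obtain ⟨h3, h4, h5⟩ := mem_flags.1 h1
      exact mem_biUnion.2 ⟨p.1, h3, mem_image.2 ⟨p.2, mem_filter.2 ⟨h4, h5, h2⟩, rfl⟩⟩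
    have h2 : #(H.biUnion (fun l => (U.filter (fun u => u ∉ l ∧ IsP H l u)).image
        (fun u => (l, u)))) ≤ #H * 3 := by
      apply card_biUnion_le_card_mul
      intro l hl
      refine card_image_le.trans ?_
      apply h.card_isP hR hK hl
      intro u hu
      exact (mem_filter.1 hu).2
    have h3 := (card_le_card h1).trans h2
    omega
  have hPsum : -3 * (#P : ℤ) ≤ ∑ p ∈ P, ((3 : ℤ) - 2 * jj H p.1 p.2) := by
    have h1 : ∑ _p ∈ P, (-3 : ℤ) ≤ ∑ p ∈ P, ((3 : ℤ) - 2 * jj H p.1 p.2) := by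
      refine sum_le_sum fun p hp => ?_
      obtain ⟨h1, h2⟩ := mem_filter.1 hp
      have h3 := jj_le h (mem_flags.1 h1).1 p.2
      have h4 : (jj H p.1 p.2 : ℤ) ≤ 3 := by exact_mod_cast h3
      linarith
    rw [sum_const, nsmul_eq_mul] at h1
    linarith
  have htot : ∑ p ∈ P, ((3 : ℤ) - 2 * jj H p.1 p.2) + v =
      3 * (#(flags H U) : ℤ) - 4 * dd H U := by
    rw [hv, hG, hP, sum_filter_add_sum_filter_not, sum_sub_distrib, sum_const, nsmul_eq_mul,
      ← mul_sum]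
    have h1 : ∑ p ∈ flags H U, (jj H p.1 p.2 : ℤ) = 2 * dd H U := by
      exact_mod_cast h.sum_jj
    rw [h1]
    ring
  have hPcard' : (#P : ℤ) ≤ 3 * #H := by exact_mod_cast hPcard
  refine ⟨v, ?_, by linarith, ?_, ?_⟩
  · rw [hv']
    exact sum_nonneg fun M hM => (hmain M hM).1
  · have h1 : (flags H U).filter (fun p => jj H p.1 p.2 = 0) =
        G.filter (fun p => jj H p.1 p.2 = 0) := by
      ext p
      rw [mem_filter, mem_filter, mem_filter]
      constructor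
      · rintro ⟨hp, h0⟩
        refine ⟨⟨hp, fun hPp => ?_⟩, h0⟩
        have := h.two_le_jj (mem_flags.1 hp).1 (mem_flags.1 hp).2.2 hPp
        omega
      · rintro ⟨⟨hp, _⟩, h0⟩
        exact ⟨hp, h0⟩
    rw [h1, hcardG, hv', mul_sum]
    exact sum_le_sum fun M hM => (hmain M hM).2.1
  · have h1 : (#(flags H U) : ℤ) = #P + #G := by
      have := card_filter_add_card_filter_not (s := flags H U) (fun p => IsP H p.1 p.2)
      exact_mod_cast this.symm
    have h2 : (#G : ℤ) = ∑ M ∈ 𝓜, (#(G.filter (fun q => pl q = M)) : ℤ) := by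
      have := card_eq_sum_card_fiberwise (s := G) (t := 𝓜) (f := pl)
        (fun p hp => mem_coe.2 (hmaps p (mem_coe.1 hp)))
      rw [this]
      push_cast
      rfl
    have h3 : (#G : ℤ) ≤ K ^ 2 * v + 16 * #(G.filter (fun p => jj H p.1 p.2 = 2)) := by
      rw [h2, hcardG, hv', mul_sum, mul_sum, ← sum_add_distrib]
      exact sum_le_sum fun M hM => (hmain M hM).2.2
    have h4 : (#(G.filter (fun p => jj H p.1 p.2 = 2)) : ℤ) ≤
        #((flags H U).filter (fun p => jj H p.1 p.2 = 2)) := by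
      have h5 : G.filter (fun p => jj H p.1 p.2 = 2) ⊆
          (flags H U).filter (fun p => jj H p.1 p.2 = 2) := by
        apply filter_subset_filter
        exact filter_subset _ _
      exact_mod_cast card_le_card h5
    linarith

end Pool.Agent.Helper18.Win
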