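import Mathlib
import Pool.Agent.Helper18.Win.Count

/-!
# Linear triple systems without windows have density at most one half
-/

set_option autoImplicit false

namespace Pool.Agent.Helper18.Win

open Finset

variable {V : Type*} [DecidableEq V] {H : Finset (Finset V)} {U : Finset V} {K : ℕ}

lemma NW.mono {H' : Finset (Finset V)} (h : NW H K) (hH : H' ⊆ H) : NW H' K :=
  fun S hS => h S (hS.trans hH)

/-- The constant in the degree condition. -/
def DK (K : ℕ) : ℕ := K + 3 * (K + 1) ^ 2

lemma Sys.card_two_le (h : Sys H U) (X : Finset V) :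
    #(H.filter (fun A => 2 ≤ #(A ∩ X))) ≤ #X ^ 2 := by
  have h1 : H.filter (fun A => 2 ≤ #(A ∩ X)) ⊆
      X.offDiag.biUnion (fun p => thr H p.1 ∩ thr H p.2) := by
    intro A hA
    obtain ⟨hAH, h2⟩ := mem_filter.1 hA
    obtain ⟨x, hx, y, hy, hxy⟩ := one_lt_card.1 (by omega : 1 < #(A ∩ X))
    rw [mem_inter] at hx hy
    exact mem_biUnion.2 ⟨(x, y), mem_offDiag.2 ⟨hx.2, hy.2, hxy⟩,
      mem_inter.2 ⟨mem_thr.2 ⟨hAH, hx.1⟩, mem_thr.2 ⟨hAH, hy.1⟩⟩⟩
  have h2 : #(X.offDiag.biUnion (fun p => thr H p.1 ∩ thr H p.2)) ≤ #X.offDiag * 1 := by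
    apply card_biUnion_le_card_mul
    intro p hp
    exact h.card_thr_inter (mem_offDiag.1 hp).2.2
  have h3 : #X.offDiag ≤ #X ^ 2 := by
    rw [offDiag_card, sq]
    exact Nat.sub_le _ _
  exact (card_le_card h1).trans (by omega)

lemma Sys.sum_thr_le (h : Sys H U) (X : Finset V) :
    ∑ x ∈ X, #(thr H x) ≤ #(H.filter (fun A => #(A ∩ X) = 1)) + 3 * #X ^ 2 := by
  have h1 : ∑ x ∈ X, #(thr H x) = ∑ A ∈ H, #(A ∩ X) := by
    have : ∀ x ∈ X, #(thr H x) = ∑ A ∈ H, if x ∈ A then 1 else 0 := by
      intro x _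
      rw [thr, card_filter]
    rw [sum_congr rfl this, sum_comm]
    refine sum_congr rfl fun A _ => ?_
    rw [← card_filter, inter_comm, filter_mem_eq_inter]
  have h2 : ∀ A ∈ H, #(A ∩ X) ≤ (if #(A ∩ X) = 1 then 1 else 0) +
      3 * (if 2 ≤ #(A ∩ X) then 1 else 0) := by
    intro A hA
    have h3 : #(A ∩ X) ≤ 3 := by
      rw [← h.card3 A hA]
      exact card_le_card inter_subset_left
    by_cases h4 : #(A ∩ X) = 1
    · rw [if_pos h4]; omega
    · rw [if_neg h4]
      by_cases h5 : 2 ≤ #(A ∩ X)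
      · rw [if_pos h5]; omega
      · rw [if_neg h5]; omega
  have h3 := sum_le_sum h2
  rw [sum_add_distrib, ← mul_sum, ← card_filter, ← card_filter] at h3
  have h4 := h.card_two_le X
  rw [h1]
  omega

/-- Large minimal degree excludes rich sets of size at least `7`. -/
lemma noRich (h : Sys H U) (hW : NW H K) (hdeg : ∀ x ∈ U, #U + DK K < 7 * #(thr H x)) :
    NoRich H K := by
  -- first for subsets of `U`
  have key : ∀ X ⊆ U, 7 ≤ #X → #X ≤ 2 * K + 3 → #(inn H X) + 3 ≤ #X := by
    intro X hXU h7 h2K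
    by_contra hcon
    push Not at hcon
    rcases Nat.lt_or_ge (K + 2) #X with hK3 | hK2
    · have := hW.card_inn (X := X) (by omega) h2K
      omega
    rcases Nat.eq_or_lt_of_le hK2 with hK2' | hK1
    · obtain ⟨S, hS, hSc⟩ := exists_subset_card_eq (s := inn H X) (n := K) (by omega)
      have h3 := hW S (hS.trans (inn_subset X)) (by omega) (by omega)
      have h4 : S.biUnion id ⊆ X := by
        rw [biUnion_subset]
        intro A hA
        exact (mem_inn.1 (hS hA)).2
      have h5 := card_le_card h4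
      omega
    · obtain ⟨m, hm⟩ : ∃ m, m + #X = K + 1 := ⟨K + 1 - #X, by omega⟩
      have hbl := Helper18.card_blocks_le (f := fun A : Finset V => A \ X) (q := 1) (m := m)
        (H.filter (fun A => #(A ∩ X) = 1)) ?_ ?_
      · have hU : #((H.filter (fun A => #(A ∩ X) = 1)).biUnion (fun A => A \ X)) ≤ #U := by
          apply card_le_card
          rw [biUnion_subset]
          intro A hA
          exact sdiff_subset.trans (h.sub A (mem_filter.1 hA).1)
        have hL : #(H.filter (fun A => #(A ∩ X) = 1)) ≤ #U + m := by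
          have h1 : (m + 1) * #(H.filter (fun A => #(A ∩ X) = 1)) ≤ (m + 1) * (#U + m) := by
            calc (m + 1) * #(H.filter (fun A => #(A ∩ X) = 1))
                = (1 * m + 1) * #(H.filter (fun A => #(A ∩ X) = 1)) := by ring
              _ ≤ m * #((H.filter (fun A => #(A ∩ X) = 1)).biUnion (fun A => A \ X)) +
                  (1 * m + 1) * m := hbl
              _ ≤ m * #U + (1 * m + 1) * m := by gcongr
              _ ≤ (m + 1) * (#U + m) := by nlinarith
          exact Nat.le_of_mul_le_mul_left h1 (Nat.succ_pos m)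
        have h1 := h.sum_thr_le X
        have h2 : #X * (#U + DK K + 1) ≤ 7 * ∑ x ∈ X, #(thr H x) := by
          rw [mul_sum, ← smul_eq_mul, ← sum_const]
          exact sum_le_sum fun x hx => hdeg x (hXU hx)
        have h3 : 7 * (#U + DK K + 1) ≤ #X * (#U + DK K + 1) := Nat.mul_le_mul_right _ h7
        have h4 : #X ^ 2 ≤ (K + 1) ^ 2 := Nat.pow_le_pow_left (by omega) 2
        unfold DK at h2 h3
        omega
      · intro A hA
        obtain ⟨hAH, hA1⟩ := mem_filter.1 hA
        have h1 := card_sdiff_add_card_inter A X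
        rw [hA1, h.card3 A hAH] at h1
        show #(A \ X) = 1 + 1
        omega
      · intro S hS hSc
        by_contra hlt
        push Not at hlt
        obtain ⟨S0, hS0, hS0c⟩ := exists_subset_card_eq (s := inn H X) (n := #X - 2) (by omega)
        have hd : Disjoint S0 S := by
          rw [disjoint_left]
          intro A hA0 hA
          have h1 := (mem_filter.1 (hS hA)).2
          rw [inter_eq_left.2 (mem_inn.1 (hS0 hA0)).2, h.card3 A (mem_inn.1 (hS0 hA0)).1] at h1
          omega
        have hT : #(S0 ∪ S) = K := by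
          rw [card_union_of_disjoint hd]
          omega
        have h1 := hW (S0 ∪ S) (union_subset (hS0.trans (inn_subset X))
          (hS.trans (filter_subset _ _))) (by omega) (by omega)
        have h2 : (S0 ∪ S).biUnion id ⊆ X ∪ S.biUnion (fun A => A \ X) := by
          intro x hx
          obtain ⟨A, hA, hxA⟩ := mem_biUnion.1 hx
          by_cases hxX : x ∈ X
          · exact mem_union_left _ hxX
          · rcases mem_union.1 hA with hA | hA
            · exact absurd ((mem_inn.1 (hS0 hA)).2 hxA) hxX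
            · exact mem_union_right _ (mem_biUnion.2 ⟨A, hA, mem_sdiff.2 ⟨hxA, hxX⟩⟩)
        have h3 := (card_le_card h2).trans (card_union_le _ _)
        omega
  intro X h7 h2K
  have h1 : inn H (X ∩ U) = inn H X := by
    ext A
    rw [mem_inn, mem_inn]
    exact ⟨fun hA => ⟨hA.1, hA.2.trans inter_subset_left⟩,
      fun hA => ⟨hA.1, subset_inter hA.2 (h.sub A hA.1)⟩⟩
  have h2 : #(X ∩ U) ≤ #X := card_le_card inter_subset_left
  rcases Nat.lt_or_ge #(X ∩ U) 7 with h3 | h3
  · have hS := h.inn (X ∩ U)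
    have h4 : #(inn H (X ∩ U)) ≤ 4 := by
      rcases Nat.lt_or_ge #(X ∩ U) 6 with h5 | h5
      · have := hS.card_le_of_five (by omega); omega
      · exact hS.card_le_of_six (by omega)
    rw [h1] at h4
    omega
  · have := key (X ∩ U) inter_subset_right h3 (by omega)
    rw [h1] at this
    omega

/-- Removing a point. -/
lemma Sys.erase (h : Sys H U) (x : V) : Sys (H.filter (fun A => x ∉ A)) (U.erase x) :=
  ⟨fun A hA => h.card3 A (mem_filter.1 hA).1,
    fun A hA => subset_erase.2 ⟨h.sub A (mem_filter.1 hA).1, (mem_filter.1 hA).2⟩,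
    fun A hA B hB => h.lin A (mem_filter.1 hA).1 B (mem_filter.1 hB).1⟩

/-- The quadratic inequality between the number of lines and `dd`. -/
lemma Sys.sq_le (h : Sys H U) : (3 * (#H : ℤ)) ^ 2 ≤ #U * (dd H U + 3 * #H) := by
  have h1 := sq_sum_le_card_mul_sum_sq (s := U) (f := fun x => (#(thr H x) : ℤ))
  have h2 : ∑ x ∈ U, (#(thr H x) : ℤ) = 3 * #H := by exact_mod_cast h.sum_thr
  have h3 : ∑ x ∈ U, (#(thr H x) : ℤ) ^ 2 = dd H U + 3 * #H := by
    rw [← h2]
    unfold dd
    push_cast
    rw [← sum_add_distrib]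
    refine sum_congr rfl fun x _ => ?_
    rcases Nat.eq_zero_or_pos #(thr H x) with h0 | h0
    · rw [h0]; simp
    · rw [Nat.cast_sub h0]
      push_cast
      ring
  rw [h2, h3] at h1
  exact h1

/-- **Density.** A linear triple system with `u` points, in which for no `e` between `K` and `2 K`
there are `e` lines on `e + 3` points, has at most `u ^ 2 / 12 + O(u)` lines. -/
theorem density (hK : 3 ≤ K) : ∀ (u : ℕ) (H : Finset (Finset V)) (U : Finset V), #U = u →
    Sys H U → NW H K → 12 * (#H : ℤ) ≤ (u : ℤ) ^ 2 + (2 * DK K + 4) * u := by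
  intro u
  induction u with
  | zero =>
    intro H U hU h _
    have : #H = 0 := by
      rw [card_eq_zero, eq_empty_iff_forall_notMem]
      intro A hA
      have h1 := card_le_card (h.sub A hA)
      rw [h.card3 A hA, hU] at h1
      omega
    rw [this]
    simp
  | succ u ih =>
    intro H U hU h hW
    by_cases hdeg : ∀ x ∈ U, #U + DK K < 7 * #(thr H x)
    · -- large minimal degree
      have hR := noRich h hW hdeg
      obtain ⟨v, hv0, hv1, -, -⟩ := counting h hW hR hK
      have hfl : (#(flags H U) : ℤ) + 3 * #H = #H * #U := by exact_mod_cast h.card_flags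
      have hsq := h.sq_le
      rw [hU] at hsq hfl
      have hdd : 4 * (dd H U : ℤ) ≤ 3 * (#H * ((u + 1 : ℕ) : ℤ)) := by linarith
      have hu0 : (0 : ℤ) < ((u + 1 : ℕ) : ℤ) := by positivity
      have h1 : 4 * (3 * (#H : ℤ)) ^ 2 ≤
          ((u + 1 : ℕ) : ℤ) * (3 * (#H * ((u + 1 : ℕ) : ℤ)) + 12 * #H) := by
        have : ((u + 1 : ℕ) : ℤ) * (4 * dd H U + 12 * #H) ≤
          ((u + 1 : ℕ) : ℤ) * (3 * (#H * ((u + 1 : ℕ) : ℤ)) + 12 * #H) := by
          apply mul_le_mul_of_nonneg_left _ hu0.le
          linarith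
        linarith
      rcases Nat.eq_zero_or_pos #H with h0 | h0
      · rw [h0]
        positivity
      · have hH0 : (0 : ℤ) < #H := by exact_mod_cast h0
        have h2 : (3 * (#H : ℤ)) * (12 * #H) ≤
            (3 * (#H : ℤ)) * (((u + 1 : ℕ) : ℤ) ^ 2 + 4 * ((u + 1 : ℕ) : ℤ)) := by
          calc (3 * (#H : ℤ)) * (12 * #H) = 4 * (3 * (#H : ℤ)) ^ 2 := by ring
            _ ≤ ((u + 1 : ℕ) : ℤ) * (3 * (#H * ((u + 1 : ℕ) : ℤ)) + 12 * #H) := h1
            _ = _ := by ring
        have h3 := le_of_mul_le_mul_left h2 (by linarith)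
        have h4 : (0 : ℤ) ≤ 2 * DK K * ((u + 1 : ℕ) : ℤ) := by positivity
        linarith
    · push Not at hdeg
      obtain ⟨x, hx, hxd⟩ := hdeg
      have h1 := ih (H.filter (fun A => x ∉ A)) (U.erase x)
        (by rw [card_erase_of_mem hx]; omega) (h.erase x) (hW.mono (filter_subset _ _))
      have h2 : #H = #(thr H x) + #(H.filter (fun A => x ∉ A)) :=
        (card_filter_add_card_filter_not (s := H) (fun A => x ∈ A)).symm
      have h3 : (7 : ℤ) * #(thr H x) ≤ (u + 1) + DK K := by
        rw [hU] at hxd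
        exact_mod_cast hxd
      rw [h2]
      push_cast
      have h4 : (0 : ℤ) ≤ DK K := Int.natCast_nonneg _
      have h5 : (0 : ℤ) ≤ u := Int.natCast_nonneg _
      nlinarith

end Pool.Agent.Helper18.Win
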