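import Mathlib
import Pool.Agent.Helper18.Win.Density

/-!
# Two colours
-/

set_option autoImplicit false

namespace Pool.Agent.Helper18.Win

open Finset

variable {V : Type*} [DecidableEq V] {H R B : Finset (Finset V)} {U : Finset V} {K : ℕ}

/-- The number of flags with a given value of `jj`. -/
def nj (H : Finset (Finset V)) (U : Finset V) (i : ℕ) : ℕ :=
  #((flags H U).filter (fun p => jj H p.1 p.2 = i))

/-- The points of `l` which are not on a common line with `u`. -/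
def nonadj (H : Finset (Finset V)) (l : Finset V) (u : V) : Finset V :=
  l.filter (fun v => ¬ ∃ A ∈ H, u ∈ A ∧ v ∈ A)

/-- The points of `l` which are on a common line with `u`. -/
def adj (H : Finset (Finset V)) (l : Finset V) (u : V) : Finset V :=
  l.filter (fun v => ∃ A ∈ H, u ∈ A ∧ v ∈ A)

lemma card_adj_eq (l : Finset V) (u : V) : #(adj H l u) = jj H l u := rfl

lemma Sys.card_nonadj (h : Sys H U) {l : Finset V} (hl : l ∈ H) (u : V) :
    #(nonadj H l u) + jj H l u = 3 := by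
  rw [← h.card3 l hl, ← card_adj_eq]
  unfold nonadj adj
  have := card_filter_add_card_filter_not (s := l) (fun v => ∃ A ∈ H, u ∈ A ∧ v ∈ A)
  omega

/-- Triples `(x, y, z)`, `x`, `y` on a line and neither of them on a line with `z`. -/
def Q1 (H : Finset (Finset V)) (U : Finset V) : Finset (V × V × V) :=
  (flags H U).biUnion (fun p => (nonadj H p.1 p.2).offDiag.image (fun q => (q.1, q.2, p.2)))

/-- Triples `(x, y, z)`, `x`, `y` on a line, `y`, `z` on a line, `x`, `z` not on a line. -/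
def Q2 (H : Finset (Finset V)) (U : Finset V) : Finset (V × V × V) :=
  (flags H U).biUnion (fun p =>
    (nonadj H p.1 p.2 ×ˢ adj H p.1 p.2).image (fun q => (q.1, q.2, p.2)))

lemma Sys.card_Q (h : Sys H U) (P : Finset V × V → Finset (V × V))
    (hP : ∀ p ∈ flags H U, ∀ q ∈ P p, q.1 ∈ p.1 ∧ q.2 ∈ p.1 ∧ q.1 ≠ q.2) :
    #((flags H U).biUnion (fun p => (P p).image (fun q => (q.1, q.2, p.2)))) =
      ∑ p ∈ flags H U, #(P p) := by
  rw [card_biUnion]
  · refine sum_congr rfl fun p _ => ?_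
    apply card_image_of_injective
    rintro ⟨a, b⟩ ⟨c, d⟩ heq
    simp only [Prod.mk.injEq] at heq ⊢
    exact ⟨heq.1, heq.2.1⟩
  · intro p hp p' hp' hne
    rw [Function.onFun, disjoint_left]
    intro t ht ht'
    obtain ⟨q, hq, rfl⟩ := mem_image.1 ht
    obtain ⟨q', hq', heq⟩ := mem_image.1 ht'
    simp only [Prod.mk.injEq] at heq
    obtain ⟨h1, h2, h3⟩ := hP p hp q hq
    obtain ⟨h4, h5, h6⟩ := hP p' hp' q' hq'
    rw [heq.1] at h4
    rw [heq.2.1] at h5
    apply hne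
    exact Prod.ext (h.eq_of_mem (mem_flags.1 hp).1 (mem_flags.1 hp').1 h3 h1 h2 h4 h5)
      heq.2.2.symm

lemma Sys.card_Q2 (h : Sys H U) : #(Q2 H U) = 2 * nj H U 1 + 2 * nj H U 2 := by
  unfold Q2
  rw [h.card_Q (fun p => nonadj H p.1 p.2 ×ˢ adj H p.1 p.2)]
  · unfold nj
    rw [card_filter, card_filter, mul_sum, mul_sum, ← sum_add_distrib]
    refine sum_congr rfl fun p hp => ?_
    rw [card_product, card_adj_eq]
    have h1 := h.card_nonadj (mem_flags.1 hp).1 p.2
    have h2 := jj_le h (mem_flags.1 hp).1 p.2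
    have h3 : #(nonadj H p.1 p.2) = 3 - jj H p.1 p.2 := by omega
    rw [h3]
    interval_cases jj H p.1 p.2 <;> simp
  · intro p hp q hq
    obtain ⟨h1, h2⟩ := mem_product.1 hq
    obtain ⟨h3, h4⟩ := mem_filter.1 h1
    obtain ⟨h5, h6⟩ := mem_filter.1 h2
    refine ⟨h3, h5, ?_⟩
    intro heq
    rw [heq] at h4
    exact h4 h6

lemma Sys.card_Q1 (h : Sys H U) : #(Q1 H U) = 6 * nj H U 0 + 2 * nj H U 1 := by
  unfold Q1
  rw [h.card_Q (fun p => (nonadj H p.1 p.2).offDiag)]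
  · unfold nj
    rw [card_filter, card_filter, mul_sum, mul_sum, ← sum_add_distrib]
    refine sum_congr rfl fun p hp => ?_
    rw [offDiag_card]
    have h1 := h.card_nonadj (mem_flags.1 hp).1 p.2
    have h2 := jj_le h (mem_flags.1 hp).1 p.2
    have h3 : #(nonadj H p.1 p.2) = 3 - jj H p.1 p.2 := by omega
    rw [h3]
    interval_cases jj H p.1 p.2 <;> simp
  · intro p hp q hq
    obtain ⟨h1, h2, h3⟩ := mem_offDiag.1 hq
    exact ⟨(mem_filter.1 h1).1, (mem_filter.1 h2).1, h3⟩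

/-- The ordered pairs of points that are not on a common line. -/
def unc (H : Finset (Finset V)) (U : Finset V) : Finset (V × V) :=
  U.offDiag.filter (fun q => ¬ ∃ A ∈ H, q.1 ∈ A ∧ q.2 ∈ A)

lemma Sys.card_unc (h : Sys H U) : #(unc H U) + 6 * #H = #U * #U - #U := by
  rw [← offDiag_card, ← card_filter_add_card_filter_not (s := U.offDiag)
    (fun q => ¬ ∃ A ∈ H, q.1 ∈ A ∧ q.2 ∈ A)]
  have h1 : U.offDiag.filter (fun q => ¬ ¬ ∃ A ∈ H, q.1 ∈ A ∧ q.2 ∈ A) =
      H.biUnion (fun A => A.offDiag) := by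
    ext q
    rw [mem_filter, mem_biUnion, not_not, mem_offDiag]
    constructor
    · rintro ⟨⟨_, _, hne⟩, A, hA, h1, h2⟩
      exact ⟨A, hA, mem_offDiag.2 ⟨h1, h2, hne⟩⟩
    · rintro ⟨A, hA, hq⟩
      obtain ⟨h1, h2, h3⟩ := mem_offDiag.1 hq
      exact ⟨⟨h.sub A hA h1, h.sub A hA h2, h3⟩, A, hA, h1, h2⟩
  rw [h1, card_biUnion]
  · have h2 : ∑ A ∈ H, #A.offDiag = 6 * #H := by
      rw [mul_comm, ← smul_eq_mul, ← sum_const]
      refine sum_congr rfl fun A hA => ?_
      rw [offDiag_card, h.card3 A hA]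
    rw [h2]
    rfl
  · intro A hA B hB hAB
    rw [Function.onFun, disjoint_left]
    intro q hq hq'
    obtain ⟨h1, h2, h3⟩ := mem_offDiag.1 hq
    obtain ⟨h4, h5, _⟩ := mem_offDiag.1 hq'
    exact hAB (h.eq_of_mem hA hB h3 h1 h2 h4 h5)

/-- The comparison of the two colours. -/
lemma card_Q2_le (h : Sys (R ∪ B) U) (hRB : Disjoint R B) :
    #(Q2 B U) ≤ #(Q1 R U) + #(unc (R ∪ B) U) * #U := by
  have hmap : ∀ t ∈ Q2 B U, ((t.1, t.2.2, t.2.1) : V × V × V) ∈
      Q1 R U ∪ (unc (R ∪ B) U ×ˢ U).image (fun s => (s.1.1, s.1.2, s.2)) := by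
    intro t ht
    obtain ⟨p, hp, ht⟩ := mem_biUnion.1 ht
    obtain ⟨q, hq, rfl⟩ := mem_image.1 ht
    obtain ⟨hl, hc, hcl⟩ := mem_flags.1 hp
    obtain ⟨h1, h2⟩ := mem_product.1 hq
    obtain ⟨ha, hna⟩ := mem_filter.1 h1
    obtain ⟨hb, hnb⟩ := mem_filter.1 h2
    simp only
    have hac : q.1 ≠ p.2 := by
      intro heq
      exact hcl (heq ▸ ha)
    have hab : q.1 ≠ q.2 := by
      intro heq
      rw [heq] at hna
      exact hna hnb
    have hbc : q.2 ≠ p.2 := by
      intro heq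
      exact hcl (heq ▸ hb)
    have hlU := h.sub p.1 (mem_union_right _ hl)
    by_cases hcov : ∃ A ∈ R ∪ B, q.1 ∈ A ∧ p.2 ∈ A
    · obtain ⟨A, hA, haA, hcA⟩ := hcov
      have hAR : A ∈ R := by
        rcases mem_union.1 hA with h' | h'
        · exact h'
        · exact absurd ⟨A, h', hcA, haA⟩ hna
      apply mem_union_left
      have hlR : p.1 ∉ R := fun h' => disjoint_left.1 hRB h' hl
      refine mem_biUnion.2 ⟨(A, q.2), mem_flags.2 ⟨hAR, hlU hb, ?_⟩, ?_⟩
      · intro hbA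
        have := h.eq_of_mem (mem_union_left _ hAR) (mem_union_right _ hl) hab haA hbA ha hb
        exact hlR (this ▸ hAR)
      · refine mem_image.2 ⟨(q.1, p.2), mem_offDiag.2 ⟨mem_filter.2 ⟨haA, ?_⟩,
          mem_filter.2 ⟨hcA, ?_⟩, hac⟩, rfl⟩
        · rintro ⟨C, hC, hbC, haC⟩
          have := h.eq_of_mem (mem_union_left _ hC) (mem_union_right _ hl) hab haC hbC ha hb
          exact hlR (this ▸ hC)
        · rintro ⟨C, hC, hbC, hcC⟩
          obtain ⟨D, hD, hcD, hbD⟩ := hnb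
          have := h.eq_of_mem (mem_union_left _ hC) (mem_union_right _ hD) hbc hbC hcC hbD hcD
          exact disjoint_left.1 hRB hC (this ▸ hD)
    · apply mem_union_right
      refine mem_image.2 ⟨((q.1, p.2), q.2), mem_product.2 ⟨mem_filter.2
        ⟨mem_offDiag.2 ⟨hlU ha, hc, hac⟩, hcov⟩, hlU hb⟩, rfl⟩
  have hinj : Function.Injective (fun t : V × V × V => ((t.1, t.2.2, t.2.1) : V × V × V)) := by
    rintro ⟨a, b, c⟩ ⟨a', b', c'⟩ heq
    simp only [Prod.mk.injEq] at heq ⊢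
    exact ⟨heq.1, heq.2.2, heq.2.1⟩
  have h1 : #(Q2 B U) = #((Q2 B U).image (fun t : V × V × V => ((t.1, t.2.2, t.2.1) : V × V × V))) :=
    (card_image_of_injective _ hinj).symm
  rw [h1]
  have h2 : (Q2 B U).image (fun t : V × V × V => ((t.1, t.2.2, t.2.1) : V × V × V)) ⊆
      Q1 R U ∪ (unc (R ∪ B) U ×ˢ U).image (fun s => (s.1.1, s.1.2, s.2)) := by
    intro s hs
    obtain ⟨t, ht, rfl⟩ := mem_image.1 hs
    exact hmap t ht
  refine (card_le_card h2).trans ((card_union_le _ _).trans ?_)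
  refine Nat.add_le_add_left ?_ _
  refine card_image_le.trans ?_
  rw [card_product]

/-- The threshold in `core`. -/
def coreN (K C : ℕ) : ℕ := 24 * (49 * K ^ 2 * (3 * (C + 4)) + 32 * C + 3) + 2 * C + 6

/-- The contradiction for two colours, when all degrees are large. -/
lemma core (hK : 3 ≤ K) (C : ℕ) (U : Finset V) (R B : Finset (Finset V))
    (hN : coreN K C ≤ #U) (h : Sys (R ∪ B) U) (hRB : Disjoint R B) (hWR : NW R K) (hWB : NW B K)
    (hdR : ∀ x ∈ U, #U + DK K < 7 * #(thr R x)) (hdB : ∀ x ∈ U, #U + DK K < 7 * #(thr B x))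
    (hcov : #U ^ 2 ≤ 6 * (#R + #B) + C * #U) : False := by
  unfold coreN at hN
  have hSR : Sys R U := h.mono subset_union_left
  have hSB : Sys B U := h.mono subset_union_right
  obtain ⟨vR, hR0, hR1, hR2, hR3⟩ := counting hSR hWR (noRich hSR hWR hdR) hK
  obtain ⟨vB, hB0, hB1, hB2, hB3⟩ := counting hSB hWB (noRich hSB hWB hdB) hK
  have hcu : #(R ∪ B) = #R + #B := card_union_of_disjoint hRB
  -- numbers
  have fR : (#(flags R U) : ℤ) + 3 * #R = #R * #U := by exact_mod_cast hSR.card_flags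
  have fB : (#(flags B U) : ℤ) + 3 * #B = #B * #U := by exact_mod_cast hSB.card_flags
  have hun : (#(unc (R ∪ B) U) : ℤ) + 6 * (#R + #B) = #U * #U - #U := by
    have h1 := h.card_unc
    rw [hcu] at h1
    have h2 : #U ≤ #U * #U := Nat.le_mul_self _
    have h3 : ((#U * #U - #U : ℕ) : ℤ) = #U * #U - #U := by
      rw [Nat.cast_sub h2]; push_cast; ring
    rw [← h3, ← h1]
    push_cast
    ring
  have hcov' : (#U : ℤ) ^ 2 ≤ 6 * (#R + #B) + C * #U := by exact_mod_cast hcov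
  set u : ℤ := (#U : ℤ) with hu
  set m : ℤ := (#R : ℤ) + #B with hm
  have hm0 : 0 ≤ m := by positivity
  have hu1 : 1 ≤ u := by
    have : 1 ≤ #U := by omega
    rw [hu]
    exact_mod_cast this
  have hunc0 : (0 : ℤ) ≤ #(unc (R ∪ B) U) := Int.natCast_nonneg _
  have hm6 : 6 * m ≤ u * u := by linarith
  have hunc : (#(unc (R ∪ B) U) : ℤ) ≤ C * u := by
    have e1 : u ^ 2 = u * u := sq u
    linarith
  -- the sum of the squares of the degrees
  have hdeg : 2 * (3 * m) ^ 2 ≤ 4 * u * ((dd R U : ℤ) + dd B U + 3 * m) := by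
    have h1 := sq_sum_le_card_mul_sum_sq (s := U) (f := fun x => ((#(thr R x) : ℤ) + #(thr B x)))
    have h2 : ∑ x ∈ U, ((#(thr R x) : ℤ) + #(thr B x)) = 3 * m := by
      rw [sum_add_distrib]
      have e1 : ∑ x ∈ U, (#(thr R x) : ℤ) = 3 * #R := by exact_mod_cast hSR.sum_thr
      have e2 : ∑ x ∈ U, (#(thr B x) : ℤ) = 3 * #B := by exact_mod_cast hSB.sum_thr
      rw [e1, e2, hm]; ring
    have h3 : ∀ (H : Finset (Finset V)), Sys H U →
        ∑ x ∈ U, (#(thr H x) : ℤ) ^ 2 = dd H U + 3 * #H := by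
      intro H hH
      have e1 : ∑ x ∈ U, (#(thr H x) : ℤ) = 3 * #H := by exact_mod_cast hH.sum_thr
      rw [← e1]
      unfold dd
      push_cast
      rw [← sum_add_distrib]
      refine sum_congr rfl fun x _ => ?_
      rcases Nat.eq_zero_or_pos #(thr H x) with h0 | h0
      · rw [h0]; simp
      · rw [Nat.cast_sub h0]
        push_cast
        ring
    have h4 : ∑ x ∈ U, ((#(thr R x) : ℤ) + #(thr B x)) ^ 2 ≤
        2 * ((dd R U : ℤ) + dd B U + 3 * m) := by
      calc ∑ x ∈ U, ((#(thr R x) : ℤ) + #(thr B x)) ^ 2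
          ≤ ∑ x ∈ U, (2 * (#(thr R x) : ℤ) ^ 2 + 2 * (#(thr B x) : ℤ) ^ 2) := by
            refine sum_le_sum fun x _ => ?_
            nlinarith [sq_nonneg ((#(thr R x) : ℤ) - #(thr B x))]
        _ = 2 * (∑ x ∈ U, (#(thr R x) : ℤ) ^ 2) + 2 * (∑ x ∈ U, (#(thr B x) : ℤ) ^ 2) := by
            rw [sum_add_distrib, mul_sum, mul_sum]
        _ = _ := by
            rw [h3 R hSR, h3 B hSB, hm]
            ring
    rw [h2] at h1
    have h5 : (#U : ℤ) * ∑ x ∈ U, ((#(thr R x) : ℤ) + #(thr B x)) ^ 2 ≤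
        u * (2 * ((dd R U : ℤ) + dd B U + 3 * m)) := by
      rw [← hu]
      exact mul_le_mul_of_nonneg_left h4 (by linarith)
    have h6 : (3 * m) ^ 2 ≤ u * (2 * ((dd R U : ℤ) + dd B U + 3 * m)) := h1.trans h5
    calc 2 * (3 * m) ^ 2 ≤ 2 * (u * (2 * ((dd R U : ℤ) + dd B U + 3 * m))) := by linarith
      _ = _ := by ring
  -- bound for `v`
  have hv : vR + vB ≤ 3 * m * (C + 4) := by
    have h1 : vR + vB ≤ 3 * (m * u) - 4 * ((dd R U : ℤ) + dd B U) := by
      have : m * u = #R * #U + #B * #U := by rw [hm, hu]; ring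
      rw [this]
      linarith
    have h2 : u * (vR + vB) ≤ u * (3 * m * (C + 4)) := by
      calc u * (vR + vB) ≤ u * (3 * (m * u) - 4 * ((dd R U : ℤ) + dd B U)) :=
            mul_le_mul_of_nonneg_left h1 (by linarith)
        _ = 3 * m * u ^ 2 + 12 * m * u - 4 * u * ((dd R U : ℤ) + dd B U + 3 * m) := by ring
        _ ≤ 3 * m * u ^ 2 + 12 * m * u - 2 * (3 * m) ^ 2 := by linarith
        _ = 3 * m * (u ^ 2 - 6 * m + 4 * u) := by ring
        _ ≤ 3 * m * (C * u + 4 * u) := by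
            apply mul_le_mul_of_nonneg_left _ (by linarith)
            linarith
        _ = _ := by ring
    exact le_of_mul_le_mul_left h2 (by linarith)
  -- comparison of the colours
  have hQ1 := card_Q2_le h hRB
  have hQ2 := card_Q2_le (R := B) (B := R) (by rw [union_comm]; exact h) hRB.symm
  rw [hSB.card_Q2, hSR.card_Q1] at hQ1
  rw [hSR.card_Q2, hSB.card_Q1, union_comm B R] at hQ2
  have hN2 : (nj R U 2 : ℤ) + nj B U 2 ≤ 3 * (nj R U 0 + nj B U 0) +
      #(unc (R ∪ B) U) * u := by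
    have h1 : 2 * (nj R U 2 + nj B U 2) ≤ 6 * (nj R U 0 + nj B U 0) +
        2 * (#(unc (R ∪ B) U) * #U) := by omega
    have h2 : nj R U 2 + nj B U 2 ≤ 3 * (nj R U 0 + nj B U 0) +
        #(unc (R ∪ B) U) * #U := by omega
    rw [hu]
    exact_mod_cast h2
  have hn0R : (nj R U 0 : ℤ) ≤ K ^ 2 * vR := hR2
  have hn0B : (nj B U 0 : ℤ) ≤ K ^ 2 * vB := hB2
  have hfR : (#(flags R U) : ℤ) ≤ K ^ 2 * vR + 16 * nj R U 2 + 3 * #R := hR3
  have hfB : (#(flags B U) : ℤ) ≤ K ^ 2 * vB + 16 * nj B U 2 + 3 * #B := hB3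
  have hK2 : (0 : ℤ) ≤ K ^ 2 := by positivity
  have hKv : (K : ℤ) ^ 2 * (vR + vB) ≤ K ^ 2 * (3 * m * (C + 4)) :=
    mul_le_mul_of_nonneg_left hv hK2
  have huncu : (#(unc (R ∪ B) U) : ℤ) * u ≤ C * u * u :=
    mul_le_mul_of_nonneg_right hunc (by linarith)
  have hfin : m * u - 3 * m ≤ 49 * (K ^ 2 * (3 * m * (C + 4))) + 16 * (C * u * u) + 3 * m := by
    have e1 : m * u = #R * #U + #B * #U := by rw [hm, hu]; ring
    have e2 : (K : ℤ) ^ 2 * (vR + vB) = K ^ 2 * vR + K ^ 2 * vB := by ring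
    rw [e1]
    linarith
  -- the contradiction
  set c : ℤ := 49 * K ^ 2 * (3 * (C + 4)) + 32 * C + 3 with hc
  have hc0 : 0 ≤ c := by positivity
  have hNu : 24 * c + 2 * C + 6 ≤ u := by
    have : ((24 * (49 * K ^ 2 * (3 * (C + 4)) + 32 * C + 3) + 2 * C + 6 : ℕ) : ℤ) ≤ u := by
      rw [hu]
      exact_mod_cast hN
    push_cast at this
    rw [hc]
    linarith
  have hC0 : (0 : ℤ) ≤ C := Int.natCast_nonneg _
  have hlow : u * u ≤ 12 * m := by
    have e1 : u ^ 2 = u * u := sq u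
    have e2 : 2 * (C : ℤ) ≤ u := by linarith
    have e3 : 2 * (C : ℤ) * u ≤ u * u := mul_le_mul_of_nonneg_right e2 (by linarith)
    linarith
  have h1 : m * u ≤ m * (49 * (K ^ 2 * (3 * (C + 4))) + 6) + 16 * (C * (12 * m)) := by
    have e3 : C * u * u ≤ C * (12 * m) := by
      rw [mul_assoc]
      exact mul_le_mul_of_nonneg_left hlow hC0
    calc m * u ≤ 49 * (K ^ 2 * (3 * m * (C + 4))) + 16 * (C * u * u) + 3 * m + 3 * m := by
          linarith
      _ ≤ 49 * (K ^ 2 * (3 * m * (C + 4))) + 16 * (C * (12 * m)) + 3 * m + 3 * m := by linarith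
      _ = _ := by ring
  have hmpos : 0 < m := by
    by_contra hcon
    have : m = 0 := by linarith
    rw [this, mul_zero] at hlow
    have e1 : 1 * 1 ≤ u * u := mul_le_mul hu1 hu1 zero_le_one (by linarith)
    linarith
  have h2 : m * u ≤ m * (49 * (K ^ 2 * (3 * (C + 4))) + 6 + 192 * C) := by
    calc m * u ≤ m * (49 * (K ^ 2 * (3 * (C + 4))) + 6) + 16 * (C * (12 * m)) := h1
      _ = _ := by ring
  have h3 : u ≤ 49 * (K ^ 2 * (3 * (C + 4))) + 6 + 192 * C := le_of_mul_le_mul_left h2 hmpos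
  have h4 : 49 * ((K : ℤ) ^ 2 * (3 * (C + 4))) = c - 32 * C - 3 := by rw [hc]; ring
  rw [h4] at h3
  have hc1 : 32 * (C : ℤ) + 3 ≤ c := by
    have : (0 : ℤ) ≤ 49 * K ^ 2 * (3 * (C + 4)) := by positivity
    rw [hc]
    linarith
  linarith

/-- The bound for the number of points of small degree. -/
def lowS (K C : ℕ) : ℕ := 7 * (2 * DK K + 4) + 7 * C + 1

/-- There are few points of small degree. -/
lemma card_low (hK : 3 ≤ K) (C E : ℕ) (U : Finset V) (R B : Finset (Finset V))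
    (hN : 7 * lowS K C ^ 2 + 12 * lowS K C * E < 2 * #U) (hSR : Sys R U) (hSB : Sys B U)
    (hWR : NW R K) (hWB : NW B K)
    (hcov : #U ^ 2 ≤ 6 * (#R + #B) + C * #U) :
    #(U.filter (fun x => 7 * #(thr R x) ≤ #U + E)) ≤ lowS K C := by
  by_contra hcon
  push Not at hcon
  set s := lowS K C with hs
  obtain ⟨T, hT, hTs⟩ := exists_subset_card_eq hcon.le
  have hTU : T ⊆ U := hT.trans (filter_subset _ _)
  have h1 : #R ≤ #(inn R (U \ T)) + ∑ x ∈ T, #(thr R x) := by
    have h2 : R ⊆ inn R (U \ T) ∪ T.biUnion (fun x => thr R x) := by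
      intro A hA
      by_cases hAT : A ⊆ U \ T
      · exact mem_union_left _ (mem_inn.2 ⟨hA, hAT⟩)
      · obtain ⟨x, hxA, hx⟩ := not_subset.1 hAT
        apply mem_union_right
        have hxT : x ∈ T := by
          by_contra hxT
          exact hx (mem_sdiff.2 ⟨hSR.sub A hA hxA, hxT⟩)
        exact mem_biUnion.2 ⟨x, hxT, mem_thr.2 ⟨hA, hxA⟩⟩
    exact (card_le_card h2).trans ((card_union_le _ _).trans
      (Nat.add_le_add_left card_biUnion_le _))
  have h2 : 7 * ∑ x ∈ T, #(thr R x) ≤ s * (#U + E) := by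
    rw [mul_sum, ← hTs, ← smul_eq_mul, ← sum_const]
    exact sum_le_sum fun x hx => (mem_filter.1 (hT hx)).2
  have h3 := density hK #U B U rfl hSB hWB
  have hcd : #(U \ T) = #U - s := by rw [card_sdiff_of_subset hTU, hTs]
  have hsU : s ≤ #U := by rw [← hTs]; exact card_le_card hTU
  have h4 := density hK #(U \ T) (inn R (U \ T)) (U \ T) rfl (hSR.inn _)
    (hWR.mono (inn_subset _))
  have h5 : ((#(U \ T) : ℕ) : ℤ) = #U - s := by rw [hcd, Nat.cast_sub hsU]
  rw [h5] at h4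
  have h1' : (#R : ℤ) ≤ #(inn R (U \ T)) + (∑ x ∈ T, #(thr R x) : ℕ) := by exact_mod_cast h1
  have h2' : (7 : ℤ) * (∑ x ∈ T, #(thr R x) : ℕ) ≤ s * (#U + E) := by exact_mod_cast h2
  have hcov' : (#U : ℤ) ^ 2 ≤ 6 * (#R + #B) + C * #U := by exact_mod_cast hcov
  have hN' : (7 : ℤ) * s ^ 2 + 12 * s * E < 2 * #U := by exact_mod_cast hN
  have hs' : (s : ℤ) = 7 * (2 * DK K + 4) + 7 * C + 1 := by
    rw [hs]; unfold lowS; push_cast; ring
  set u : ℤ := (#U : ℤ) with hu
  set D : ℤ := 2 * (DK K : ℤ) + 4 with hD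
  have hD0 : 0 ≤ D := by positivity
  have hs0 : (0 : ℤ) ≤ s := Int.natCast_nonneg _
  have e1 : 84 * (#R : ℤ) ≤ 7 * ((u - s) ^ 2 + D * (u - s)) + 12 * (s * (u + E)) := by linarith
  have e2 : 2 * u ^ 2 - 2 * (C * u) - (u ^ 2 + D * u) ≤ 12 * (#R : ℤ) := by linarith
  have e3 : 7 * (2 * u ^ 2 - 2 * (C * u) - (u ^ 2 + D * u)) ≤
      7 * ((u - s) ^ 2 + D * (u - s)) + 12 * (s * (u + E)) := by linarith
  have e4 : 2 * (u * s) ≤ 7 * s ^ 2 + 12 * s * E + 14 * (D * u) + 14 * (C * u) - 7 * (D * s) := by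
    nlinarith
  have e5 : u * s = 7 * (D * u) + 7 * (C * u) + u := by
    rw [hs']; ring
  have e6 : 0 ≤ D * s := mul_nonneg hD0 hs0
  linarith

/-- The threshold for two colours. -/
def mainN (K : ℕ) : ℕ :=
  7 * lowS K 1 ^ 2 + 12 * lowS K 1 * (DK K + 14 * lowS K 1) +
    coreN K ((6 * lowS K 1 + 1) * (2 * lowS K 1 + 1)) + 2 * lowS K 1 + 1

/-- Two colours: a large complete linear triple system has a colour class with a window. -/
theorem twoColours (hK : 3 ≤ K) (U : Finset V) (R B : Finset (Finset V)) (hN : mainN K ≤ #U)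
    (h : Sys (R ∪ B) U) (hRB : Disjoint R B) (hWR : NW R K) (hWB : NW B K)
    (hcov : #U ^ 2 ≤ 6 * (#R + #B) + #U) : False := by
  classical
  set s := lowS K 1 with hs
  have hN' : 7 * s ^ 2 + 12 * s * (DK K + 14 * s) + coreN K ((6 * s + 1) * (2 * s + 1)) +
      2 * s + 1 ≤ #U := hN
  have hSR : Sys R U := h.mono subset_union_left
  have hSB : Sys B U := h.mono subset_union_right
  set E := DK K + 14 * s with hE
  set SR := U.filter (fun x => 7 * #(thr R x) ≤ #U + E) with hSRd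
  set SB := U.filter (fun x => 7 * #(thr B x) ≤ #U + E) with hSBd
  have hcR : #SR ≤ s := card_low hK 1 E U R B (by rw [← hs]; omega) hSR hSB hWR hWB (by omega)
  have hcB : #SB ≤ s := card_low hK 1 E U B R (by rw [← hs]; omega) hSB hSR hWB hWR (by omega)
  set S := SR ∪ SB with hS
  have hSs : #S ≤ 2 * s := by
    have : #S ≤ #SR + #SB := card_union_le SR SB
    omega
  have hSU : S ⊆ U := union_subset (filter_subset _ _) (filter_subset _ _)
  set U' := U \ S with hU'
  have hcU' : #U' + #S = #U := by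
    rw [hU', card_sdiff_of_subset hSU]
    have := card_le_card hSU
    omega
  -- degrees
  have hdeg : ∀ (H : Finset (Finset V)), Sys H U → ∀ x ∈ U', #U + E < 7 * #(thr H x) →
      #U' + DK K < 7 * #(thr (inn H U') x) := by
    intro H hH x hx hd
    have hxS : x ∉ S := (mem_sdiff.1 hx).2
    have h1 : #(thr H x) ≤ #(thr (inn H U') x) + #S := by
      have h2 : thr H x ⊆ thr (inn H U') x ∪ S.biUnion (fun y => thr H x ∩ thr H y) := by
        intro A hA
        obtain ⟨hAH, hxA⟩ := mem_thr.1 hA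
        by_cases hAU : A ⊆ U'
        · exact mem_union_left _ (mem_thr.2 ⟨mem_inn.2 ⟨hAH, hAU⟩, hxA⟩)
        · obtain ⟨y, hyA, hy⟩ := not_subset.1 hAU
          have hyS : y ∈ S := by
            by_contra hyS
            exact hy (mem_sdiff.2 ⟨hH.sub A hAH hyA, hyS⟩)
          exact mem_union_right _ (mem_biUnion.2 ⟨y, hyS, mem_inter.2
            ⟨hA, mem_thr.2 ⟨hAH, hyA⟩⟩⟩)
      have h3 : #(S.biUnion (fun y => thr H x ∩ thr H y)) ≤ #S * 1 := by
        apply card_biUnion_le_card_mul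
        intro y hy
        apply hH.card_thr_inter
        rintro rfl
        exact hxS hy
      have h4 := (card_le_card h2).trans (card_union_le _ _)
      omega
    omega
  have hdR : ∀ x ∈ U', #U' + DK K < 7 * #(thr (inn R U') x) := by
    intro x hx
    apply hdeg R hSR x hx
    by_contra hcon
    push Not at hcon
    apply (mem_sdiff.1 hx).2
    exact mem_union_left _ (mem_filter.2 ⟨(mem_sdiff.1 hx).1, hcon⟩)
  have hdB : ∀ x ∈ U', #U' + DK K < 7 * #(thr (inn B U') x) := by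
    intro x hx
    apply hdeg B hSB x hx
    by_contra hcon
    push Not at hcon
    apply (mem_sdiff.1 hx).2
    exact mem_union_right _ (mem_filter.2 ⟨(mem_sdiff.1 hx).1, hcon⟩)
  -- covering
  have hloss : #R + #B ≤ #(inn R U') + #(inn B U') + ∑ x ∈ S, #(thr (R ∪ B) x) := by
    have h2 : R ∪ B ⊆ (inn R U' ∪ inn B U') ∪ S.biUnion (fun x => thr (R ∪ B) x) := by
      intro A hA
      by_cases hAT : A ⊆ U'
      · apply mem_union_left
        rcases mem_union.1 hA with h' | h'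
        · exact mem_union_left _ (mem_inn.2 ⟨h', hAT⟩)
        · exact mem_union_right _ (mem_inn.2 ⟨h', hAT⟩)
      · obtain ⟨x, hxA, hx⟩ := not_subset.1 hAT
        apply mem_union_right
        have hxS : x ∈ S := by
          by_contra hxT
          exact hx (mem_sdiff.2 ⟨h.sub A hA hxA, hxT⟩)
        exact mem_biUnion.2 ⟨x, hxS, mem_thr.2 ⟨hA, hxA⟩⟩
    have h3 := (card_le_card h2).trans (card_union_le _ _)
    have h4 : #(inn R U' ∪ inn B U') ≤ #(inn R U') + #(inn B U') := card_union_le _ _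
    have h5 : #(S.biUnion (fun x => thr (R ∪ B) x)) ≤ ∑ x ∈ S, #(thr (R ∪ B) x) :=
      card_biUnion_le
    rw [card_union_of_disjoint hRB] at h3
    omega
  have hloss2 : 2 * ∑ x ∈ S, #(thr (R ∪ B) x) ≤ #S * #U := by
    rw [mul_sum, ← smul_eq_mul (#S), ← sum_const]
    refine sum_le_sum fun x hx => ?_
    have := h.card_thr (hSU hx)
    omega
  have hSn : #S * #U ≤ 2 * s * #U := Nat.mul_le_mul_right _ hSs
  have hcov2 : #U ^ 2 ≤ 6 * (#(inn R U') + #(inn B U')) + (6 * s + 1) * #U := by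
    have : (6 * s + 1) * #U = 3 * (2 * s * #U) + #U := by ring
    omega
  have hU'1 : 1 ≤ #U' := by omega
  have hUU' : #U ≤ (2 * s + 1) * #U' := by
    have h1 : 2 * s * 1 ≤ 2 * s * #U' := Nat.mul_le_mul_left _ hU'1
    have h2 : (2 * s + 1) * #U' = 2 * s * #U' + #U' := by ring
    omega
  refine core hK ((6 * s + 1) * (2 * s + 1)) U' (inn R U') (inn B U') (by omega) ?_ ?_
    (hWR.mono (inn_subset _)) (hWB.mono (inn_subset _)) hdR hdB ?_
  · have h1 : inn R U' ∪ inn B U' = inn (R ∪ B) U' := by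
      unfold inn
      rw [filter_union]
    rw [h1]
    exact h.inn U'
  · exact hRB.mono (inn_subset _) (inn_subset _)
  · have h1 : #U' ^ 2 ≤ #U ^ 2 := Nat.pow_le_pow_left (by omega) 2
    have h2 : (6 * s + 1) * #U ≤ (6 * s + 1) * ((2 * s + 1) * #U') := Nat.mul_le_mul_left _ hUU'
    have h3 : (6 * s + 1) * ((2 * s + 1) * #U') = (6 * s + 1) * (2 * s + 1) * #U' := by ring
    omega

end Pool.Agent.Helper18.Win
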