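import Mathlib
import Pool.Agent.Helper18.Win.Ramsey

/-!
# Two-coloured complete linear `3`-graphs

For every `K ≥ 3` and all large `n`, in every colouring of the triples of a complete linear
`3`-graph (Steiner triple system) on `n` vertices by two colours there are, for some `e` between
`K` and `2 K`, `e` triples of the same colour which span at most `e + 3` vertices.
-/

set_option autoImplicit false

namespace Pool.Agent.Helper18.Win.TwoColourTriples

open Finset Pool.Agent.Helper18.Win

/-- **Two-coloured Steiner triple systems.** For every `K ≥ 3` there is `N` such that for all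
`n ≥ N` and every colouring by two colours of the edges of a complete linear `3`-graph on `n`
vertices there are, for some `e` with `K ≤ e ≤ 2 K`, `e` edges of the same colour which span at
most `e + 3` vertices. -/
theorem result : ∀ K : ℕ, 3 ≤ K → ∃ N : ℕ, ∀ n ≥ N, ∀ H : Finset (Finset (Fin n)),
    (∀ A ∈ H, A.card = 3) →
    (∀ x y : Fin n, x ≠ y → ∃! A, A ∈ H ∧ x ∈ A ∧ y ∈ A) →
    ∀ col : Finset (Fin n) → Fin 2,
      ∃ S ⊆ H, K ≤ S.card ∧ S.card ≤ 2 * K ∧ (S.biUnion id).card ≤ S.card + 3 ∧
        ∃ i, ∀ A ∈ S, col A = i := by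
  intro K hK
  refine ⟨mainN K, ?_⟩
  intro n hn H hu hc col
  by_contra hcon
  push Not at hcon
  set R := H.filter (fun A => col A = 0) with hR
  set B := H.filter (fun A => ¬ col A = 0) with hB
  have hRB : R ∪ B = H := filter_union_filter_not_eq _ _
  have hd : Disjoint R B := disjoint_filter_filter_not _ _ _
  have hS : Sys H univ := by
    refine ⟨hu, fun _ _ => subset_univ _, ?_⟩
    intro A hA A' hA' hne
    rw [card_le_one]
    intro x hx y hy
    rw [mem_inter] at hx hy
    by_contra hxy
    exact hne ((hc x y hxy).unique ⟨hA, hx.1, hy.1⟩ ⟨hA', hx.2, hy.2⟩)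
  have hWR : NW R K := by
    intro S hSR h1 h2
    by_contra hlt
    push Not at hlt
    obtain ⟨A, hA, hne⟩ := hcon S (hSR.trans (filter_subset _ _)) h1 h2 hlt 0
    exact hne (mem_filter.1 (hSR hA)).2
  have hWB : NW B K := by
    intro S hSB h1 h2
    by_contra hlt
    push Not at hlt
    obtain ⟨A, hA, hne⟩ := hcon S (hSB.trans (filter_subset _ _)) h1 h2 hlt 1
    have := (mem_filter.1 (hSB hA)).2
    omega
  apply twoColours hK (univ : Finset (Fin n)) R B _ _ hd hWR hWB
  · -- covering
    have h1 := hS.card_unc
    have h2 : unc H univ = ∅ := by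
      unfold unc
      rw [filter_eq_empty_iff]
      intro q hq
      rw [not_not]
      obtain ⟨A, ⟨hA, h1, h2⟩, -⟩ := hc q.1 q.2 (mem_offDiag.1 hq).2.2
      exact ⟨A, hA, h1, h2⟩
    rw [h2, card_empty, zero_add] at h1
    have h3 : #R + #B = #H := by
      rw [← hRB, card_union_of_disjoint hd]
    have h4 : #(univ : Finset (Fin n)) ≤ #(univ : Finset (Fin n)) * #(univ : Finset (Fin n)) :=
      Nat.le_mul_self _
    rw [h3, sq]
    omega
  · rw [card_univ, Fintype.card_fin]
    exact hn
  · rw [hRB]
    exact hS

end Pool.Agent.Helper18.Win.TwoColourTriples
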